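import Mathlib

open Set Topology Filter

namespace Pool.Agent.Helper52.CompDeriv

/-- Darboux property for functions on the line. -/
def Darboux (f : ℝ → ℝ) : Prop :=
  ∀ a b t : ℝ, t ∈ uIcc (f a) (f b) → ∃ s ∈ uIcc a b, f s = t

/-- Baire one functions on the line: pointwise limits of continuous functions. -/
def BaireOne (f : ℝ → ℝ) : Prop :=
  ∃ F : ℕ → ℝ → ℝ, (∀ m, Continuous (F m)) ∧ ∀ x, Tendsto (fun m => F m x) atTop (𝓝 (f x))

theorem exists_continuousAt_of_tendsto {Y : Type} [TopologicalSpace Y] [BaireSpace Y] [Nonempty Y]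
    (φ : ℕ → Y → ℝ) (hφ : ∀ m, Continuous (φ m)) (ψ : Y → ℝ)
    (h : ∀ y, Tendsto (fun m => φ m y) atTop (𝓝 (ψ y))) : ∃ y, ContinuousAt ψ y := by
  let F : ℕ → ℕ → Set Y :=
    fun j N => {y | ∀ m, N ≤ m → ∀ m', N ≤ m' → |φ m y - φ m' y| ≤ 1 / ((j : ℝ) + 1)}
  have hFc : ∀ j N, IsClosed (F j N) := by
    intro j N
    have : F j N = ⋂ m, ⋂ (_ : N ≤ m), ⋂ m', ⋂ (_ : N ≤ m'),
        {y | |φ m y - φ m' y| ≤ 1 / ((j : ℝ) + 1)} := by
      ext y
      simp [F]
    rw [this]
    refine isClosed_iInter fun m => isClosed_iInter fun _ => isClosed_iInter fun m' =>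
      isClosed_iInter fun _ => ?_
    exact isClosed_le ((hφ m).sub (hφ m')).abs continuous_const
  have hFu : ∀ j, ⋃ N, F j N = univ := by
    intro j
    refine eq_univ_of_forall fun y => ?_
    have hc := (h y).cauchySeq
    obtain ⟨N, hN⟩ := Metric.cauchySeq_iff.mp hc (1 / ((j : ℝ) + 1)) (by positivity)
    refine mem_iUnion.mpr ⟨N, fun m hm m' hm' => ?_⟩
    have := hN m hm m' hm'
    rw [Real.dist_eq] at this
    exact this.le
  have hd : Dense (⋂ j, ⋃ N, interior (F j N)) := by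
    refine dense_iInter_of_isOpen (fun j => isOpen_iUnion fun N => isOpen_interior) fun j => ?_
    exact dense_iUnion_interior_of_closed (hFc j) (hFu j)
  obtain ⟨y, hy⟩ := hd.nonempty
  refine ⟨y, ?_⟩
  rw [Metric.continuousAt_iff']
  intro ε hε
  obtain ⟨j, hj⟩ := exists_nat_one_div_lt (show 0 < ε / 3 by positivity)
  obtain ⟨N, hN⟩ := mem_iUnion.mp (mem_iInter.mp hy j)
  have hlim : ∀ z ∈ F j N, |φ N z - ψ z| ≤ 1 / ((j : ℝ) + 1) := by
    intro z hz
    have ht : Tendsto (fun m => |φ N z - φ m z|) atTop (𝓝 |φ N z - ψ z|) :=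
      (tendsto_const_nhds.sub (h z)).abs
    exact le_of_tendsto ht (eventually_atTop.mpr ⟨N, fun m hm => hz N le_rfl m hm⟩)
  have h1 : ∀ᶠ z in 𝓝 y, z ∈ F j N := mem_interior_iff_mem_nhds.mp hN
  have h2 : ∀ᶠ z in 𝓝 y, |φ N z - φ N y| < ε / 3 := by
    have := (hφ N).continuousAt (x := y)
    rw [Metric.continuousAt_iff'] at this
    simpa [Real.dist_eq] using this (ε / 3) (by positivity)
  filter_upwards [h1, h2] with z hz1 hz2
  have h3 := hlim z hz1
  have h4 := hlim y (interior_subset hN)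
  rw [Real.dist_eq]
  rw [abs_le] at h3 h4
  rw [abs_lt] at hz2 ⊢
  constructor <;> linarith [h3.1, h3.2, h4.1, h4.2, hz2.1, hz2.2]

/-- The topology `τ` is induced by an injection onto a `Gδ` subset of a locally compact metric
space, and `g` is the restriction of a continuous function. -/
def Good {X : Type} (τ : TopologicalSpace X) (g : X → ℝ) : Prop :=
  ∃ (E : Type) (_ : MetricSpace E) (_ : LocallyCompactSpace E) (e : X → E) (gh : E → ℝ),
    Continuous gh ∧ τ = TopologicalSpace.induced e inferInstance ∧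
      (∀ x, g x = gh (e x)) ∧ IsGδ (range e)

theorem Good.step {X : Type} {τ : TopologicalSpace X} {g : X → ℝ} (h : Good τ g) {f : ℝ → ℝ}
    (hf : BaireOne f) :
    Good (τ ⊓ TopologicalSpace.induced (fun x => f (g x)) inferInstance) (fun x => f (g x)) := by
  obtain ⟨E, _, _, e, gh, hgh, hτ, hg, hG⟩ := h
  obtain ⟨F, hF, hFlim⟩ := hf
  refine ⟨E × ℝ, inferInstance, inferInstance, fun x => (e x, f (g x)), Prod.snd,
    continuous_snd, ?_, fun x => rfl, ?_⟩
  · rw [hτ]
    change _ = TopologicalSpace.induced _ (TopologicalSpace.induced _ _ ⊓ TopologicalSpace.induced _ _)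
    rw [induced_inf, induced_compose, induced_compose]
    rfl
  · let O : ℕ → ℕ → Set (E × ℝ) := fun j N =>
      ⋃ m, ⋃ (_ : N ≤ m), {p | |F m (gh p.1) - p.2| < 1 / ((j : ℝ) + 1)}
    have hO : ∀ j N, IsOpen (O j N) := by
      intro j N
      refine isOpen_iUnion fun m => isOpen_iUnion fun _ => ?_
      exact isOpen_lt (((hF m).comp (hgh.comp continuous_fst)).sub continuous_snd).abs
        continuous_const
    have hr : range (fun x => (e x, f (g x))) = (Prod.fst ⁻¹' range e) ∩ ⋂ j, ⋂ N, O j N := by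
      ext ⟨p, r⟩
      constructor
      · rintro ⟨x, hx⟩
        simp only [Prod.mk.injEq] at hx
        obtain ⟨rfl, rfl⟩ := hx
        refine ⟨⟨x, rfl⟩, mem_iInter.mpr fun j => mem_iInter.mpr fun N => ?_⟩
        have := Metric.tendsto_atTop.mp (hFlim (g x)) (1 / ((j : ℝ) + 1)) (by positivity)
        obtain ⟨N', hN'⟩ := this
        refine mem_iUnion.mpr ⟨max N N', mem_iUnion.mpr ⟨le_max_left _ _, ?_⟩⟩
        have := hN' (max N N') (le_max_right _ _)
        rw [Real.dist_eq, hg] at this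
        simpa [hg] using this
      · rintro ⟨⟨x, hx⟩, hO'⟩
        simp only at hx
        subst hx
        refine ⟨x, ?_⟩
        simp only [Prod.mk.injEq, true_and]
        rw [hg]
        by_contra hne
        have hpos : 0 < |f (gh (e x)) - r| := abs_pos.mpr (sub_ne_zero.mpr hne)
        obtain ⟨j, hj⟩ := exists_nat_one_div_lt (show 0 < |f (gh (e x)) - r| / 2 by positivity)
        obtain ⟨N, hN⟩ := Metric.tendsto_atTop.mp (hFlim (gh (e x)))
          (|f (gh (e x)) - r| / 2) (by positivity)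
        have := mem_iInter.mp (mem_iInter.mp hO' j) N
        obtain ⟨m, hm⟩ := mem_iUnion.mp this
        obtain ⟨hmN, hm⟩ := mem_iUnion.mp hm
        have h1 := hN m hmN
        rw [Real.dist_eq] at h1
        have h2 : |F m (gh (e x)) - r| < 1 / ((j : ℝ) + 1) := hm
        have h3 : |f (gh (e x)) - r| ≤ |F m (gh (e x)) - f (gh (e x))| + |F m (gh (e x)) - r| := by
          have := abs_sub_le (f (gh (e x))) (F m (gh (e x))) r
          rwa [abs_sub_comm (f (gh (e x))) (F m (gh (e x)))] at this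
        linarith
    rw [hr]
    refine (hG.preimage continuous_fst).inter ?_
    exact IsGδ.iInter fun j => IsGδ.iInter fun N => (hO j N).isGδ

theorem Good.baire {X : Type} {τ : TopologicalSpace X} {g : X → ℝ} (h : Good τ g) {f : ℝ → ℝ}
    (hf : BaireOne f) (R C O : Set X) (hC : IsClosed[τ] C) (hO : IsOpen[τ] O) (hR : R = C ∩ O)
    (hne : R.Nonempty) :
    ∃ x ∈ R, ∀ ε > 0, ∃ N : Set X, IsOpen[τ] N ∧ x ∈ N ∧
      ∀ y ∈ N, y ∈ R → |f (g y) - f (g x)| < ε := by
  obtain ⟨E, _, _, e, gh, hgh, rfl, hg, hG⟩ := h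
  obtain ⟨F, hF, hFlim⟩ := hf
  rw [isClosed_induced_iff] at hC
  rw [isOpen_induced_iff] at hO
  obtain ⟨C', hC', rfl⟩ := hC
  obtain ⟨O', hO', rfl⟩ := hO
  have himg : e '' R = range e ∩ (C' ∩ O') := by
    rw [hR, ← preimage_inter, image_preimage_eq_range_inter]
  have hGδ : IsGδ (e '' R) := by
    rw [himg]
    exact hG.inter (hC'.isGδ.inter hO'.isGδ)
  have hB : BaireSpace (e '' R) := hGδ.baireSpace_of_t2Space_locallyCompactSpace
  have hN : Nonempty (e '' R) := (hne.image e).to_subtype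
  obtain ⟨⟨_, x, hx, rfl⟩, hy⟩ := exists_continuousAt_of_tendsto
    (fun m (y : e '' R) => F m (gh y)) (fun m => (hF m).comp (hgh.comp continuous_subtype_val))
    (fun y => f (gh y)) (fun y => hFlim (gh y))
  refine ⟨x, hx, fun ε hε => ?_⟩
  rw [Metric.continuousAt_iff] at hy
  obtain ⟨δ, hδ, hy⟩ := hy ε hε
  refine ⟨e ⁻¹' Metric.ball (e x) δ, ⟨_, Metric.isOpen_ball, rfl⟩, Metric.mem_ball_self hδ, ?_⟩
  intro z hz hzR
  have := hy (x := ⟨e z, z, hzR, rfl⟩) hz
  rw [Real.dist_eq] at this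
  rw [hg, hg]
  exact this

end Pool.Agent.Helper52.CompDeriv
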