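import Mathlib
import Pool.Agent.Helper52.CompDeriv1

open Set Topology Filter

namespace Pool.Agent.Helper52.CompDeriv

variable {X : Type}

theorem isOpen_inf_induced_iff (τ : TopologicalSpace X) (h : X → ℝ) (D : Set X) :
    IsOpen[τ ⊓ TopologicalSpace.induced h inferInstance] D ↔
      ∀ x ∈ D, ∃ N : Set X, IsOpen[τ] N ∧ x ∈ N ∧ ∃ ε > 0, ∀ y ∈ N, |h y - h x| < ε → y ∈ D := by
  rw [@isOpen_iff_mem_nhds X (τ ⊓ TopologicalSpace.induced h inferInstance) D]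
  refine forall₂_congr fun x _ => ?_
  rw [nhds_inf, nhds_induced, Filter.mem_inf_iff_superset]
  constructor
  · rintro ⟨s, hs, t, ht, hst⟩
    obtain ⟨N, hNs, hN, hxN⟩ := (@mem_nhds_iff X τ x s).mp hs
    obtain ⟨u, hu, hut⟩ := Filter.mem_comap.mp ht
    obtain ⟨ε, hε, hεu⟩ := Metric.mem_nhds_iff.mp hu
    exact ⟨N, hN, hxN, ε, hε, fun y hy hyε => hst ⟨hNs hy, hut (hεu hyε)⟩⟩
  · rintro ⟨N, hN, hxN, ε, hε, hD⟩
    refine ⟨N, (@mem_nhds_iff X τ x N).mpr ⟨N, subset_rfl, hN, hxN⟩, h ⁻¹' Metric.ball (h x) ε,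
      Filter.preimage_mem_comap (Metric.ball_mem_nhds _ hε), ?_⟩
    rintro y ⟨hy, hyε⟩
    exact hD y hy hyε

theorem comp_isClosed {f : ℝ → ℝ} (hf : Darboux f) (z ε y0 : ℝ) :
    IsClosed (ordConnectedComponent {y | ε ≤ |f y - z|} y0) := by
  set F : Set ℝ := {y | ε ≤ |f y - z|} with hF
  by_cases hy0 : y0 ∈ F
  swap
  · rw [ordConnectedComponent_eq_empty.mpr hy0]
    exact isClosed_empty
  refine isClosed_of_closure_subset fun w hw => ?_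
  have key : ∀ s ∈ uIcc y0 w, s ≠ w → s ∈ F := by
    intro s hs hsw
    rcases le_total y0 w with h | h
    · rw [uIcc_of_le h] at hs
      have hlt : s < w := lt_of_le_of_ne hs.2 hsw
      obtain ⟨m, hm1, hm2⟩ := mem_closure_iff.mp hw (Ioi s) isOpen_Ioi hlt
      exact hm2 (mem_uIcc.mpr (Or.inl ⟨hs.1, le_of_lt hm1⟩))
    · rw [uIcc_of_ge h] at hs
      have hlt : w < s := lt_of_le_of_ne hs.1 (Ne.symm hsw)
      obtain ⟨m, hm1, hm2⟩ := mem_closure_iff.mp hw (Iio s) isOpen_Iio hlt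
      exact hm2 (mem_uIcc.mpr (Or.inr ⟨le_of_lt hm1, hs.2⟩))
  have hwF : w ∈ F := by
    by_contra hwF
    have hwF' : |f w - z| < ε := not_le.mp hwF
    have hy0' : ε ≤ |f y0 - z| := hy0
    obtain ⟨t, ht1, ht2, ht3⟩ : ∃ t ∈ uIcc (f y0) (f w), |t - z| < ε ∧ t ≠ f w := by
      rw [abs_lt] at hwF'
      rcases le_abs.mp hy0' with h | h
      · refine ⟨(f w + (z + ε)) / 2, mem_uIcc.mpr (Or.inr ⟨by linarith, by linarith⟩), ?_, ?_⟩
        · rw [abs_lt]; constructor <;> linarith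
        · intro h'; linarith
      · refine ⟨(f w + (z - ε)) / 2, mem_uIcc.mpr (Or.inl ⟨by linarith, by linarith⟩), ?_, ?_⟩
        · rw [abs_lt]; constructor <;> linarith
        · intro h'; linarith
    obtain ⟨s, hs, rfl⟩ := hf y0 w t ht1
    have hsw : s ≠ w := fun h => ht3 (by rw [h])
    exact absurd (key s hs hsw) (not_le.mpr ht2)
  intro s hs
  by_cases hsw : s = w
  · rw [hsw]; exact hwF
  · exact key s hs hsw

/-- The inductive package. -/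
structure Stage (τ : TopologicalSpace X) (g : X → ℝ) (𝓑 : Set (Set X)) : Prop where
  cont : ∀ O : Set ℝ, IsOpen O → IsOpen[τ] (g ⁻¹' O)
  isOpen : ∀ B ∈ 𝓑, IsOpen[τ] B
  basis : ∀ (x : X) (N : Set X), IsOpen[τ] N → x ∈ N → ∃ B ∈ 𝓑, x ∈ B ∧ B ⊆ N
  good : Good τ g
  ld : ∀ (x : X) (N : Set X), IsOpen[τ] N → x ∈ N →
    ∃ N' : Set X, IsOpen[τ] N' ∧ x ∈ N' ∧ N' ⊆ N ∧
      ∀ y ∈ N', ∀ t ∈ uIcc (g x) (g y), ∃ z ∈ N, g z = t
  q : ∀ B ∈ 𝓑, ∀ x ∈ B, ∀ 𝓜 : Set (Set ℝ), 𝓜.PairwiseDisjoint id →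
    (∀ M ∈ 𝓜, M.OrdConnected ∧ g x ∉ M) →
    {M | M ∈ 𝓜 ∧ ∃ D : Set X, D.Nonempty ∧ D ⊆ B ∧ D ⊆ g ⁻¹' M ∧ IsOpen[τ] D ∧
      IsOpen[τ] (B \ D)}.Finite

theorem open_of_forall (τ : TopologicalSpace X) (D : Set X)
    (h : ∀ x ∈ D, ∃ N : Set X, IsOpen[τ] N ∧ x ∈ N ∧ N ⊆ D) : IsOpen[τ] D := by
  rw [@isOpen_iff_mem_nhds X τ D]
  intro x hx
  obtain ⟨N, hN, hxN, hND⟩ := h x hx
  exact (@mem_nhds_iff X τ x D).mpr ⟨N, hND, hN, hxN⟩

theorem Stage.P_aux {τ : TopologicalSpace X} {g : X → ℝ} {𝓑 : Set (Set X)} (S : Stage τ g 𝓑)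
    {f : ℝ → ℝ} (hf : Darboux f) {B D₁ D₂ : Set X} (hB : B ∈ 𝓑) (hD : D₁ ∪ D₂ = B)
    (hdisj : Disjoint D₁ D₂)
    (h2 : IsOpen[τ ⊓ TopologicalSpace.induced (fun x => f (g x)) inferInstance] D₂) {x : X}
    (hx2 : x ∈ D₂) (hx : x ∉ @interior X τ D₂)
    (hcont : ∀ ε > 0, ∃ N : Set X, IsOpen[τ] N ∧ x ∈ N ∧
      ∀ y ∈ N, y ∈ B \ (@interior X τ D₁ ∪ @interior X τ D₂) → |f (g y) - f (g x)| < ε) :
    False := by
  obtain ⟨N₁, hN₁, hxN₁, ε, hε, hN₁D⟩ := (isOpen_inf_induced_iff τ _ _).mp h2 x hx2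
  obtain ⟨N₂, hN₂, hxN₂, hN₂c⟩ := hcont ε hε
  have hBo := S.isOpen B hB
  have hxB : x ∈ B := hD ▸ Or.inr hx2
  obtain ⟨B', hB', hxB', hB'sub⟩ := S.basis x (B ∩ (N₁ ∩ N₂))
    (@IsOpen.inter X τ _ _ hBo (@IsOpen.inter X τ _ _ hN₁ hN₂)) ⟨hxB, hxN₁, hxN₂⟩
  have hB'o := S.isOpen B' hB'
  set z := f (g x) with hz
  set F : Set ℝ := {y | ε ≤ |f y - z|} with hF
  -- points of `D₁` in `B'` have `g`-value in `F`
  have hD1F : ∀ y ∈ B', y ∈ D₁ → g y ∈ F := by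
    intro y hy hy1
    by_contra hyF
    have : |f (g y) - f (g x)| < ε := not_le.mp hyF
    exact disjoint_left.mp hdisj hy1 (hN₁D y (hB'sub hy).2.1 this)
  -- points of `B'` with `g`-value in `F` are interior to `D₁` or `D₂`
  have hRF : ∀ y ∈ B', g y ∈ F → y ∈ @interior X τ D₁ ∨ y ∈ @interior X τ D₂ := by
    intro y hy hyF
    by_contra hcon
    rw [← mem_union] at hcon
    exact absurd (hN₂c y (hB'sub hy).2.2 ⟨(hB'sub hy).1, hcon⟩) (not_lt.mpr hyF)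
  -- local constancy of the component of `g y`
  have hloc : ∀ y ∈ B', y ∈ @interior X τ D₁ → ∃ N' : Set X, IsOpen[τ] N' ∧ y ∈ N' ∧
      N' ⊆ B' ∩ D₁ ∧ ∀ w ∈ N', uIcc (g y) (g w) ⊆ F := by
    intro y hy hy1
    obtain ⟨N', hN', hyN', hN's, hN'd⟩ := S.ld y (B' ∩ @interior X τ D₁)
      (@IsOpen.inter X τ _ _ hB'o (@isOpen_interior X τ D₁)) ⟨hy, hy1⟩
    refine ⟨N', hN', hyN', fun w hw => ⟨(hN's hw).1, @interior_subset X τ D₁ _ (hN's hw).2⟩, ?_⟩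
    intro w hw t ht
    obtain ⟨v, hv, rfl⟩ := hN'd w hw t ht
    exact hD1F v hv.1 (@interior_subset X τ D₁ _ hv.2)
  let 𝓜 : Set (Set ℝ) := {M | ∃ y ∈ F, M = ordConnectedComponent F y}
  have h𝓜d : 𝓜.PairwiseDisjoint id := by
    rintro _ ⟨y, hy, rfl⟩ _ ⟨w, hw, rfl⟩ hne
    simp only [Function.onFun, id]
    rw [disjoint_left]
    intro v hv1 hv2
    apply hne
    rw [ordConnectedComponent_eq hv1, ordConnectedComponent_eq hv2]
  have h𝓜o : ∀ M ∈ 𝓜, M.OrdConnected ∧ g x ∉ M := by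
    rintro _ ⟨y, hy, rfl⟩
    refine ⟨inferInstance, fun h => ?_⟩
    have := ordConnectedComponent_subset h
    simp only [hF, mem_ofPred_eq, hz, sub_self, abs_zero] at this
    linarith
  have hfin := S.q B' hB' x hxB' 𝓜 h𝓜d h𝓜o
  -- every point of `D₁ ∩ B'` gives an exceptional component
  have hexc : ∀ y ∈ B', y ∈ D₁ → ordConnectedComponent F (g y) ∈
      {M | M ∈ 𝓜 ∧ ∃ D : Set X, D.Nonempty ∧ D ⊆ B' ∧ D ⊆ g ⁻¹' M ∧ IsOpen[τ] D ∧
        IsOpen[τ] (B' \ D)} := by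
    intro y hy hy1
    have hyF := hD1F y hy hy1
    set M := ordConnectedComponent F (g y) with hM
    have hMc : IsClosed M := comp_isClosed hf z ε (g y)
    refine ⟨⟨g y, hyF, rfl⟩, (D₁ ∩ B') ∩ g ⁻¹' M, ⟨y, ⟨hy1, hy⟩, ?_⟩, ?_, ?_, ?_, ?_⟩
    · exact self_mem_ordConnectedComponent.mpr hyF
    · exact fun w hw => hw.1.2
    · exact fun w hw => hw.2
    · refine open_of_forall τ _ fun w hw => ?_
      have hwF := hD1F w hw.1.2 hw.1.1
      have hw1 : w ∈ @interior X τ D₁ := by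
        rcases hRF w hw.1.2 hwF with h | h
        · exact h
        · exact absurd (@interior_subset X τ D₂ _ h) (disjoint_left.mp hdisj hw.1.1)
      obtain ⟨N', hN', hwN', hN's, hN'F⟩ := hloc w hw.1.2 hw1
      refine ⟨N', hN', hwN', fun v hv => ⟨⟨(hN's hv).2, (hN's hv).1⟩, ?_⟩⟩
      exact mem_ordConnectedComponent_trans hw.2 (hN'F v hv)
    · refine open_of_forall τ _ fun w hw => ?_
      obtain ⟨hwB', hw⟩ := hw
      by_cases hwM : g w ∈ M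
      · have hwF : g w ∈ F := ordConnectedComponent_subset hwM
        have hw1 : w ∉ D₁ := fun h => hw ⟨⟨h, hwB'⟩, hwM⟩
        have hw2 : w ∈ @interior X τ D₂ := by
          rcases hRF w hwB' hwF with h | h
          · exact absurd (@interior_subset X τ D₁ _ h) hw1
          · exact h
        refine ⟨B' ∩ @interior X τ D₂, @IsOpen.inter X τ _ _ hB'o (@isOpen_interior X τ D₂),
          ⟨hwB', hw2⟩, fun v hv => ⟨hv.1, fun hv' => ?_⟩⟩
        exact disjoint_left.mp hdisj hv'.1.1 (@interior_subset X τ D₂ _ hv.2)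
      · refine ⟨B' ∩ g ⁻¹' Mᶜ, @IsOpen.inter X τ _ _ hB'o (S.cont _ hMc.isOpen_compl),
          ⟨hwB', hwM⟩, fun v hv => ⟨hv.1, fun hv' => hv.2 hv'.2⟩⟩
  -- shrink the neighbourhood to avoid all exceptional components
  apply hx
  rw [@mem_interior X τ]
  let E : Set (Set ℝ) := {M | M ∈ 𝓜 ∧ ∃ D : Set X, D.Nonempty ∧ D ⊆ B' ∧ D ⊆ g ⁻¹' M ∧
    IsOpen[τ] D ∧ IsOpen[τ] (B' \ D)}
  have hEc : IsClosed (⋃₀ E) := by
    rw [sUnion_eq_biUnion]
    refine Set.Finite.isClosed_biUnion hfin ?_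
    rintro _ ⟨⟨y, hy, rfl⟩, _⟩
    exact comp_isClosed hf z ε y
  refine ⟨B' ∩ g ⁻¹' (⋃₀ E)ᶜ, ?_, @IsOpen.inter X τ _ _ hB'o (S.cont _ hEc.isOpen_compl),
    hxB', ?_⟩
  · rintro y ⟨hy, hyE⟩
    have hyB : y ∈ D₁ ∪ D₂ := hD ▸ (hB'sub hy).1
    rcases hyB with hy1 | hy2
    · exfalso
      exact hyE ⟨_, hexc y hy hy1, self_mem_ordConnectedComponent.mpr (hD1F y hy hy1)⟩
    · exact hy2
  · rintro ⟨M, hM, hxM⟩
    exact (h𝓜o M hM.1).2 hxM

/-- Relative clopen sets of the finer topology are relatively clopen in the coarser one. -/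
theorem Stage.P {τ : TopologicalSpace X} {g : X → ℝ} {𝓑 : Set (Set X)} (S : Stage τ g 𝓑)
    {f : ℝ → ℝ} (hf : Darboux f) (hf1 : BaireOne f) {B D₁ D₂ : Set X} (hB : B ∈ 𝓑)
    (hD : D₁ ∪ D₂ = B) (hdisj : Disjoint D₁ D₂)
    (h1 : IsOpen[τ ⊓ TopologicalSpace.induced (fun x => f (g x)) inferInstance] D₁)
    (h2 : IsOpen[τ ⊓ TopologicalSpace.induced (fun x => f (g x)) inferInstance] D₂) :
    IsOpen[τ] D₁ ∧ IsOpen[τ] D₂ := by
  set R := B \ (@interior X τ D₁ ∪ @interior X τ D₂) with hR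
  have hRe : R = ∅ := by
    by_contra hne
    have hne := nonempty_iff_ne_empty.mpr hne
    obtain ⟨x, hxR, hx⟩ := S.good.baire hf1 R (@interior X τ D₁ ∪ @interior X τ D₂)ᶜ B
      (@IsOpen.isClosed_compl X τ _
        (@IsOpen.union X _ _ τ (@isOpen_interior X τ D₁) (@isOpen_interior X τ D₂)))
      (S.isOpen B hB) (by rw [hR, sdiff_eq, inter_comm]) hne
    have hxB : x ∈ D₁ ∪ D₂ := hD ▸ hxR.1
    rcases hxB with h | h
    · exact S.P_aux hf hB (by rw [union_comm]; exact hD) hdisj.symm h1 h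
        (fun h' => hxR.2 (Or.inl h')) (by rw [union_comm]; exact hx)
    · exact S.P_aux hf hB hD hdisj h2 h (fun h' => hxR.2 (Or.inr h')) hx
  have hB' : ∀ y ∈ B, y ∈ @interior X τ D₁ ∨ y ∈ @interior X τ D₂ := by
    intro y hy
    by_contra hcon
    have : y ∈ R := ⟨hy, hcon⟩
    rw [hRe] at this
    exact this
  constructor
  · rw [← @subset_interior_iff_isOpen X τ]
    intro y hy
    rcases hB' y (hD ▸ Or.inl hy) with h | h
    · exact h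
    · exact absurd (@interior_subset X τ D₂ _ h) (disjoint_left.mp hdisj hy)
  · rw [← @subset_interior_iff_isOpen X τ]
    intro y hy
    rcases hB' y (hD ▸ Or.inr hy) with h | h
    · exact absurd hy (disjoint_left.mp hdisj (@interior_subset X τ D₁ _ h))
    · exact h

end Pool.Agent.Helper52.CompDeriv
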