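import Mathlib
import Pool.Agent.Helper52.CompDeriv2

open Set Topology Filter

namespace Pool.Agent.Helper52.CompDeriv

variable {X : Type}

/-- the boxes at the next level -/
def nextB (𝓑 : Set (Set X)) (g' : X → ℝ) : Set (Set X) :=
  {B' | ∃ B ∈ 𝓑, ∃ a b : ℝ, B' = B ∩ g' ⁻¹' Ioo a b}

theorem Stage.step {τ : TopologicalSpace X} {g : X → ℝ} {𝓑 : Set (Set X)} (S : Stage τ g 𝓑)
    {f : ℝ → ℝ} (hf : Darboux f) (hf1 : BaireOne f) :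
    Stage (τ ⊓ TopologicalSpace.induced (fun x => f (g x)) inferInstance) (fun x => f (g x))
      (nextB 𝓑 fun x => f (g x)) := by
  set τ' := τ ⊓ TopologicalSpace.induced (fun x => f (g x)) inferInstance with hτ'
  have hcont : ∀ O : Set ℝ, IsOpen O → IsOpen[τ'] ((fun x => f (g x)) ⁻¹' O) := by
    intro O hO
    refine (isOpen_inf_induced_iff τ _ _).mpr ?_
    intro x hx
    obtain ⟨ε, hε, hεO⟩ := Metric.isOpen_iff.mp hO _ hx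
    exact ⟨univ, @isOpen_univ X τ, mem_univ _, ε, hε, fun y _ hy => hεO hy⟩
  have hle : ∀ N : Set X, IsOpen[τ] N → IsOpen[τ'] N := fun N hN => hN.mono inf_le_left
  refine ⟨hcont, ?_, ?_, S.good.step hf1, ?_, ?_⟩
  · rintro _ ⟨B, hB, a, b, rfl⟩
    exact @IsOpen.inter X τ' _ _ (hle B (S.isOpen B hB)) (hcont _ isOpen_Ioo)
  · intro x N hN hx
    obtain ⟨N₀, hN₀, hxN₀, ε, hε, h⟩ := (isOpen_inf_induced_iff τ _ N).mp hN x hx
    obtain ⟨B, hB, hxB, hBN⟩ := S.basis x N₀ hN₀ hxN₀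
    refine ⟨B ∩ (fun x => f (g x)) ⁻¹' Ioo (f (g x) - ε) (f (g x) + ε), ⟨B, hB, _, _, rfl⟩,
      ⟨hxB, ?_⟩, ?_⟩
    · simp only [mem_preimage, mem_Ioo]
      constructor <;> linarith
    · rintro y ⟨hy, hy'⟩
      refine h y (hBN hy) ?_
      simp only [mem_preimage, mem_Ioo] at hy'
      rw [abs_lt]
      constructor <;> linarith [hy'.1, hy'.2]
  · intro x N hN hx
    obtain ⟨N₀, hN₀, hxN₀, ε, hε, h⟩ := (isOpen_inf_induced_iff τ _ N).mp hN x hx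
    obtain ⟨N₁, hN₁, hxN₁, hN₁s, hN₁d⟩ := S.ld x N₀ hN₀ hxN₀
    refine ⟨N₁ ∩ (fun x => f (g x)) ⁻¹' Ioo (f (g x) - ε) (f (g x) + ε),
      @IsOpen.inter X τ' _ _ (hle _ hN₁) (hcont _ isOpen_Ioo), ⟨hxN₁, ?_⟩, ?_, ?_⟩
    · simp only [mem_preimage, mem_Ioo]
      constructor <;> linarith
    · rintro y ⟨hy, hy'⟩
      refine h y (hN₁s hy) ?_
      simp only [mem_preimage, mem_Ioo] at hy'
      rw [abs_lt]
      constructor <;> linarith [hy'.1, hy'.2]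
    · rintro y ⟨hy, hy'⟩ t ht
      obtain ⟨s, hs, rfl⟩ := hf (g x) (g y) t ht
      obtain ⟨z, hz, rfl⟩ := hN₁d y hy s hs
      refine ⟨z, h z hz ?_, rfl⟩
      have h1 : f (g x) ∈ Ioo (f (g x) - ε) (f (g x) + ε) := ⟨by linarith, by linarith⟩
      have h2 : f (g z) ∈ Ioo (f (g x) - ε) (f (g x) + ε) := ordConnected_Ioo.uIcc_subset h1 hy' ht
      rw [abs_lt]
      constructor <;> linarith [h2.1, h2.2]
  · rintro _ ⟨B, hB, a, b, rfl⟩ x ⟨hxB, hxab⟩ 𝓜 hdisj hM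
    set E := {M | M ∈ 𝓜 ∧ ∃ D : Set X, D.Nonempty ∧ D ⊆ B ∩ (fun x => f (g x)) ⁻¹' Ioo a b ∧
      D ⊆ (fun x => f (g x)) ⁻¹' M ∧ IsOpen[τ'] D ∧
      IsOpen[τ'] ((B ∩ (fun x => f (g x)) ⁻¹' Ioo a b) \ D)} with hE
    let Ea := {M | M ∈ 𝓜 ∧ ∀ c, a < c → ∃ y ∈ M ∩ Ioo a b, y < c}
    let Eb := {M | M ∈ 𝓜 ∧ ∀ c, c < b → ∃ y ∈ M ∩ Ioo a b, c < y}
    let Eg := {M | M ∈ E ∧ ∃ c₁ c₂, a < c₁ ∧ c₂ < b ∧ M ∩ Ioo a b ⊆ Icc c₁ c₂}
    have hab : a < b := hxab.1.trans hxab.2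
    have heq : ∀ M₁ ∈ 𝓜, ∀ M₂ ∈ 𝓜, ∀ y, y ∈ M₁ → y ∈ M₂ → M₁ = M₂ := by
      intro M₁ h₁ M₂ h₂ y hy₁ hy₂
      by_contra hne
      exact disjoint_left.mp (hdisj h₁ h₂ hne) hy₁ hy₂
    have hEa : Ea.Finite := by
      refine Set.Subsingleton.finite ?_
      rintro M₁ ⟨h₁, h₁'⟩ M₂ ⟨h₂, h₂'⟩
      obtain ⟨y₁, hy₁, _⟩ := h₁' b hab
      obtain ⟨y₂, hy₂, hy₂'⟩ := h₂' y₁ hy₁.2.1
      obtain ⟨y₃, hy₃, hy₃'⟩ := h₁' y₂ hy₂.2.1
      have : y₂ ∈ M₁ := (hM M₁ h₁).1.out hy₃.1 hy₁.1 ⟨hy₃'.le, hy₂'.le⟩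
      exact heq M₁ h₁ M₂ h₂ y₂ this hy₂.1
    have hEb : Eb.Finite := by
      refine Set.Subsingleton.finite ?_
      rintro M₁ ⟨h₁, h₁'⟩ M₂ ⟨h₂, h₂'⟩
      obtain ⟨y₁, hy₁, _⟩ := h₁' a hab
      obtain ⟨y₂, hy₂, hy₂'⟩ := h₂' y₁ hy₁.2.2
      obtain ⟨y₃, hy₃, hy₃'⟩ := h₁' y₂ hy₂.2.2
      have : y₂ ∈ M₁ := (hM M₁ h₁).1.out hy₁.1 hy₃.1 ⟨hy₂'.le, hy₃'.le⟩
      exact heq M₁ h₁ M₂ h₂ y₂ this hy₂.1
    have hsub : E ⊆ Ea ∪ Eb ∪ Eg := by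
      intro M hME
      by_cases h1 : M ∈ Ea
      · exact Or.inl (Or.inl h1)
      by_cases h2 : M ∈ Eb
      · exact Or.inl (Or.inr h2)
      right
      refine ⟨hME, ?_⟩
      have h1' : ∃ c, a < c ∧ ∀ y ∈ M ∩ Ioo a b, c ≤ y := by
        by_contra hcon
        push Not at hcon
        exact h1 ⟨hME.1, hcon⟩
      have h2' : ∃ c, c < b ∧ ∀ y ∈ M ∩ Ioo a b, y ≤ c := by
        by_contra hcon
        push Not at hcon
        exact h2 ⟨hME.1, hcon⟩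
      obtain ⟨c₁, hc₁, hc₁'⟩ := h1'
      obtain ⟨c₂, hc₂, hc₂'⟩ := h2'
      exact ⟨c₁, c₂, hc₁, hc₂, fun y hy => ⟨hc₁' y hy, hc₂' y hy⟩⟩
    refine ((hEa.union hEb).union ?_).subset hsub
    -- the good ones
    have hch : ∀ M ∈ Eg, ∃ D : Set X, D.Nonempty ∧ D ⊆ B ∧ D ⊆ (fun x => f (g x)) ⁻¹' M ∧
        IsOpen[τ] D ∧ IsOpen[τ] (B \ D) := by
      rintro M ⟨⟨hM𝓜, D, hDne, hDB, hDM, hDo, hDc⟩, c₁, c₂, hc₁, hc₂, hMc⟩
      have hDB' : D ⊆ B := fun y hy => (hDB hy).1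
      have hDc' : IsOpen[τ'] (B \ D) := by
        have : B \ D = ((B ∩ (fun x => f (g x)) ⁻¹' Ioo a b) \ D) ∪
            (B ∩ (fun x => f (g x)) ⁻¹' (Icc c₁ c₂)ᶜ) := by
          ext y
          constructor
          · rintro ⟨hyB, hyD⟩
            by_cases hy : f (g y) ∈ Ioo a b
            · exact Or.inl ⟨⟨hyB, hy⟩, hyD⟩
            · refine Or.inr ⟨hyB, fun hy' => hy ?_⟩
              exact ⟨lt_of_lt_of_le hc₁ hy'.1, lt_of_le_of_lt hy'.2 hc₂⟩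
          · rintro (⟨⟨hyB, _⟩, hyD⟩ | ⟨hyB, hy⟩)
            · exact ⟨hyB, hyD⟩
            · exact ⟨hyB, fun hyD => hy (hMc ⟨hDM hyD, (hDB hyD).2⟩)⟩
        rw [this]
        exact @IsOpen.union X _ _ τ' hDc (@IsOpen.inter X τ' _ _ (hle B (S.isOpen B hB))
          (hcont _ isClosed_Icc.isOpen_compl))
      obtain ⟨h1, h2⟩ := S.P hf hf1 hB (union_sdiff_cancel hDB') disjoint_sdiff_right hDo hDc'
      exact ⟨D, hDne, hDB', hDM, h1, h2⟩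
    choose! D hDne hDB hDM hDo hDc using hch
    have hXne : Nonempty X := ⟨x⟩
    choose! y hy using hDne
    let Φ : Set ℝ → Set ℝ := fun M => ordConnectedComponent (f ⁻¹' M) (g (y M))
    have hΦm : ∀ M ∈ Eg, g (y M) ∈ Φ M := fun M hM' =>
      self_mem_ordConnectedComponent.mpr (hDM M hM' (hy M hM'))
    have hΦs : ∀ M v, v ∈ Φ M → f v ∈ M := fun M v hv =>
      (ordConnectedComponent_subset (s := f ⁻¹' M) hv : v ∈ f ⁻¹' M)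
    have hinj : InjOn Φ Eg := by
      intro M₁ h₁ M₂ h₂ h
      have h3 : g (y M₁) ∈ Φ M₂ := h ▸ hΦm M₁ h₁
      exact heq M₁ h₁.1.1 M₂ h₂.1.1 (f (g (y M₁))) (hDM M₁ h₁ (hy M₁ h₁))
        (hΦs M₂ _ h3)
    refine Set.Finite.of_finite_image ?_ hinj
    refine (S.q B hB x hxB (Φ '' Eg) ?_ ?_).subset ?_
    · rintro _ ⟨M₁, h₁, rfl⟩ _ ⟨M₂, h₂, rfl⟩ hne
      simp only [Function.onFun, id]
      rw [disjoint_left]
      intro v hv1 hv2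
      apply hne
      rw [heq M₁ h₁.1.1 M₂ h₂.1.1 (f v) (hΦs M₁ v hv1) (hΦs M₂ v hv2)]
    · rintro _ ⟨M, hM', rfl⟩
      refine ⟨by simp only [Φ]; infer_instance, fun h => ?_⟩
      exact (hM M hM'.1.1).2 (hΦs M _ h)
    · rintro _ ⟨M, hM', rfl⟩
      have hlc : ∀ w ∈ D M, ∃ N' : Set X, IsOpen[τ] N' ∧ w ∈ N' ∧ N' ⊆ D M ∧
          ∀ v ∈ N', uIcc (g w) (g v) ⊆ f ⁻¹' M := by
        intro w hw
        obtain ⟨N', hN', hwN', hN's, hN'd⟩ := S.ld w (D M) (hDo M hM') hw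
        refine ⟨N', hN', hwN', hN's, fun v hv t ht => ?_⟩
        obtain ⟨u, hu, rfl⟩ := hN'd v hv t ht
        exact hDM M hM' hu
      refine ⟨⟨M, hM', rfl⟩, D M ∩ g ⁻¹' (Φ M), ⟨y M, hy M hM', hΦm M hM'⟩,
        fun w hw => hDB M hM' hw.1, fun w hw => hw.2, ?_, ?_⟩
      · refine open_of_forall τ _ fun w hw => ?_
        obtain ⟨N', hN', hwN', hN's, hN'd⟩ := hlc w hw.1
        exact ⟨N', hN', hwN', fun v hv => ⟨hN's hv,
          mem_ordConnectedComponent_trans hw.2 (hN'd v hv)⟩⟩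
      · refine open_of_forall τ _ fun w hw => ?_
        by_cases hwD : w ∈ D M
        · have hwΦ : g w ∉ Φ M := fun h => hw.2 ⟨hwD, h⟩
          obtain ⟨N', hN', hwN', hN's, hN'd⟩ := hlc w hwD
          refine ⟨N', hN', hwN', fun v hv => ⟨hDB M hM' (hN's hv), fun hv' => hwΦ ?_⟩⟩
          refine mem_ordConnectedComponent_trans hv'.2 ?_
          rw [mem_ordConnectedComponent, uIcc_comm]
          exact hN'd v hv
        · exact ⟨B \ D M, hDc M hM', ⟨hw.1, hwD⟩, fun v hv => ⟨hv.1, fun hv' => hv.2 hv'.1⟩⟩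

/-- the base stage on the unit interval -/
theorem Stage.base : Stage (X := Icc (0 : ℝ) 1) inferInstance (fun x => (x : ℝ))
    {B | ∃ O : Set ℝ, IsOpen O ∧ O.OrdConnected ∧ B = Subtype.val ⁻¹' O} := by
  refine ⟨?_, ?_, ?_, ?_, ?_, ?_⟩
  · intro O hO
    exact hO.preimage continuous_subtype_val
  · rintro _ ⟨O, hO, _, rfl⟩
    exact hO.preimage continuous_subtype_val
  · intro x N hN hx
    obtain ⟨ε, hε, hεN⟩ := Metric.isOpen_iff.mp hN x hx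
    refine ⟨Subtype.val ⁻¹' Ioo ((x : ℝ) - ε) (x + ε), ⟨_, isOpen_Ioo, ordConnected_Ioo, rfl⟩,
      ⟨by linarith, by linarith⟩, fun y hy => hεN ?_⟩
    rw [Metric.mem_ball, Subtype.dist_eq, Real.dist_eq, abs_lt]
    constructor <;> linarith [hy.1, hy.2]
  · refine ⟨ℝ, inferInstance, inferInstance, Subtype.val, id, continuous_id, rfl, fun x => rfl, ?_⟩
    rw [Subtype.range_coe]
    exact isClosed_Icc.isGδ
  · intro x N hN hx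
    obtain ⟨ε, hε, hεN⟩ := Metric.isOpen_iff.mp hN x hx
    refine ⟨Subtype.val ⁻¹' Ioo ((x : ℝ) - ε) (x + ε), isOpen_Ioo.preimage continuous_subtype_val,
      ⟨by linarith, by linarith⟩, fun y hy => hεN ?_, ?_⟩
    · rw [Metric.mem_ball, Subtype.dist_eq, Real.dist_eq, abs_lt]
      constructor <;> linarith [hy.1, hy.2]
    · intro y hy t ht
      have h1 : t ∈ Icc (0 : ℝ) 1 := ordConnected_Icc.uIcc_subset x.2 y.2 ht
      refine ⟨⟨t, h1⟩, hεN ?_, rfl⟩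
      have h0 : (x : ℝ) ∈ Ioo ((x : ℝ) - ε) (x + ε) := ⟨by linarith, by linarith⟩
      have h2 : t ∈ Ioo ((x : ℝ) - ε) (x + ε) := ordConnected_Ioo.uIcc_subset h0 hy ht
      rw [Metric.mem_ball, Subtype.dist_eq, Real.dist_eq, abs_lt]
      constructor <;> linarith [h2.1, h2.2]
  · rintro _ ⟨O, hO, hOc, rfl⟩ x hx 𝓜 _ hM
    have : {M | M ∈ 𝓜 ∧ ∃ D : Set (Icc (0 : ℝ) 1), D.Nonempty ∧ D ⊆ Subtype.val ⁻¹' O ∧
        D ⊆ (fun x : Icc (0 : ℝ) 1 => (x : ℝ)) ⁻¹' M ∧ IsOpen D ∧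
        IsOpen ((Subtype.val ⁻¹' O) \ D)} = ∅ := by
      rw [eq_empty_iff_forall_notMem]
      rintro M ⟨hM𝓜, D, ⟨y, hy⟩, hDO, hDM, hDo, hDc⟩
      obtain ⟨U, hU, hUD⟩ := isOpen_induced_iff.mp hDo
      obtain ⟨V, hV, hVD⟩ := isOpen_induced_iff.mp hDc
      have hpre : IsPreconnected (O ∩ Icc (0 : ℝ) 1) := (hOc.inter ordConnected_Icc).isPreconnected
      have hxD : x ∉ D := fun h => (hM M hM𝓜).2 (hDM h)
      have h1 : O ∩ Icc (0 : ℝ) 1 ⊆ U ∪ V := by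
        rintro w ⟨hw, hw'⟩
        by_cases h : (⟨w, hw'⟩ : Icc (0 : ℝ) 1) ∈ D
        · left
          rw [← hUD] at h
          exact h
        · right
          have : (⟨w, hw'⟩ : Icc (0 : ℝ) 1) ∈ (Subtype.val ⁻¹' O) \ D := ⟨hw, h⟩
          rw [← hVD] at this
          exact this
      have h2 : (O ∩ Icc (0 : ℝ) 1 ∩ U).Nonempty := by
        refine ⟨y, ⟨hDO hy, y.2⟩, ?_⟩
        rw [← hUD] at hy
        exact hy
      have h3 : (O ∩ Icc (0 : ℝ) 1 ∩ V).Nonempty := by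
        refine ⟨x, ⟨hx, x.2⟩, ?_⟩
        have : x ∈ (Subtype.val ⁻¹' O) \ D := ⟨hx, hxD⟩
        rw [← hVD] at this
        exact this
      obtain ⟨w, ⟨hw, hw'⟩, hwU, hwV⟩ := hpre U V hU hV h1 h2 h3
      have h4 : (⟨w, hw'⟩ : Icc (0 : ℝ) 1) ∈ D := by rw [← hUD]; exact hwU
      have h5 : (⟨w, hw'⟩ : Icc (0 : ℝ) 1) ∈ (Subtype.val ⁻¹' O) \ D := by rw [← hVD]; exact hwV
      exact h5.2 h4
    rw [this]
    exact finite_empty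

end Pool.Agent.Helper52.CompDeriv
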