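import Mathlib
import Pool.Agent.Helper52.CompDeriv3

open Set Topology Filter

namespace Pool.Agent.Helper52.CompDeriv

/-- clamping to the unit interval -/
noncomputable def clamp (y : ℝ) : ℝ := max 0 (min 1 y)

theorem clamp_mem (y : ℝ) : clamp y ∈ Icc (0 : ℝ) 1 :=
  ⟨le_max_left _ _, max_le zero_le_one (min_le_left _ _)⟩

theorem clamp_of_mem {y : ℝ} (hy : y ∈ Icc (0 : ℝ) 1) : clamp y = y := by
  unfold clamp
  rw [min_eq_right hy.2, max_eq_right hy.1]

theorem continuous_clamp : Continuous clamp := by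
  unfold clamp
  fun_prop

theorem darboux_of_deriv {g F : ℝ → ℝ}
    (hF : ∀ x ∈ Icc (0 : ℝ) 1, HasDerivWithinAt F (g x) (Icc (0 : ℝ) 1) x) :
    Darboux (fun y => g (clamp y)) := by
  intro a b t ht
  have hsub : uIcc (clamp a) (clamp b) ⊆ Icc (0 : ℝ) 1 :=
    ordConnected_Icc.uIcc_subset (clamp_mem a) (clamp_mem b)
  have hoc : OrdConnected (g '' uIcc (clamp a) (clamp b)) :=
    Set.OrdConnected.image_hasDerivWithinAt ordConnected_uIcc
      (fun x hx => (hF x (hsub hx)).mono hsub)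
  have h1 : t ∈ g '' uIcc (clamp a) (clamp b) :=
    hoc.uIcc_subset ⟨_, left_mem_uIcc, rfl⟩ ⟨_, right_mem_uIcc, rfl⟩ ht
  obtain ⟨s', hs', rfl⟩ := h1
  have h2 : uIcc (clamp a) (clamp b) ⊆ clamp '' uIcc a b :=
    intermediate_value_uIcc continuous_clamp.continuousOn
  obtain ⟨s, hs, rfl⟩ := h2 hs'
  exact ⟨s, hs, rfl⟩

theorem baireOne_of_deriv {g F : ℝ → ℝ}
    (hF : ∀ x ∈ Icc (0 : ℝ) 1, HasDerivWithinAt F (g x) (Icc (0 : ℝ) 1) x) :
    BaireOne (fun y => g (clamp y)) := by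
  have hFc : ContinuousOn F (Icc (0 : ℝ) 1) := fun x hx => (hF x hx).continuousWithinAt
  have hr : ∀ m : ℕ, (1 : ℝ) / ((m : ℝ) + 1) ∈ Icc (0 : ℝ) 1 := by
    intro m
    have hm : (0 : ℝ) ≤ m := m.cast_nonneg
    exact ⟨by positivity, by rw [div_le_one (by positivity)]; linarith⟩
  have ha : ∀ (m : ℕ), ∀ c ∈ Icc (0 : ℝ) 1, c * (1 - 1 / ((m : ℝ) + 1)) ∈ Icc (0 : ℝ) 1 := by
    intro m c hc
    have := hr m
    exact ⟨mul_nonneg hc.1 (by linarith [this.2]),
      mul_le_one₀ hc.2 (by linarith [this.2]) (by linarith [this.1])⟩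
  have hb : ∀ (m : ℕ), ∀ c ∈ Icc (0 : ℝ) 1,
      c * (1 - 1 / ((m : ℝ) + 1)) + 1 / ((m : ℝ) + 1) ∈ Icc (0 : ℝ) 1 := by
    intro m c hc
    have h1 := hr m
    have h2 := ha m c hc
    refine ⟨by linarith [h1.1, h2.1], ?_⟩
    nlinarith [h1.1, h1.2, hc.1, hc.2]
  refine ⟨fun m y => ((m : ℝ) + 1) * (F (clamp y * (1 - 1 / ((m : ℝ) + 1)) + 1 / ((m : ℝ) + 1)) -
    F (clamp y * (1 - 1 / ((m : ℝ) + 1)))), ?_, ?_⟩
  · intro m
    refine continuous_const.mul (Continuous.sub ?_ ?_)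
    · exact hFc.comp_continuous ((continuous_clamp.mul continuous_const).add continuous_const)
        (fun y => hb m _ (clamp_mem y))
    · exact hFc.comp_continuous (continuous_clamp.mul continuous_const)
        (fun y => ha m _ (clamp_mem y))
  · intro y
    set c := clamp y with hc
    have hcm : c ∈ Icc (0 : ℝ) 1 := clamp_mem y
    rw [Metric.tendsto_atTop]
    intro ε hε
    have hd := (hF c hcm).isLittleO
    rw [Asymptotics.isLittleO_iff] at hd
    have hd' := hd (show 0 < ε / 2 by positivity)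
    obtain ⟨δ, hδ, hδ'⟩ := Metric.mem_nhdsWithin_iff.mp hd'
    obtain ⟨N, hN⟩ := exists_nat_one_div_lt hδ
    refine ⟨N, fun m hm => ?_⟩
    set r : ℝ := 1 / ((m : ℝ) + 1) with hrdef
    have hmpos : (0 : ℝ) < (m : ℝ) + 1 := by positivity
    have hrpos : 0 < r := by positivity
    have hrδ : r < δ := by
      refine lt_of_le_of_lt ?_ hN
      rw [hrdef]
      apply one_div_le_one_div_of_le (by positivity)
      have : (N : ℝ) ≤ m := by exact_mod_cast hm
      linarith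
    have hmr : ((m : ℝ) + 1) * r = 1 := by
      rw [hrdef]; field_simp
    have h1 : |F (c * (1 - r) + r) - F c - (c * (1 - r) + r - c) * g c| ≤
        ε / 2 * |c * (1 - r) + r - c| := by
      have := @hδ' (c * (1 - r) + r) ⟨by
        rw [Metric.mem_ball, Real.dist_eq, abs_lt]
        constructor <;> nlinarith [hcm.1, hcm.2], hb m c hcm⟩
      simpa [Real.norm_eq_abs] using this
    have h2 : |F (c * (1 - r)) - F c - (c * (1 - r) - c) * g c| ≤
        ε / 2 * |c * (1 - r) - c| := by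
      have := @hδ' (c * (1 - r)) ⟨by
        rw [Metric.mem_ball, Real.dist_eq, abs_lt]
        constructor <;> nlinarith [hcm.1, hcm.2], ha m c hcm⟩
      simpa [Real.norm_eq_abs] using this
    have h3 : |c * (1 - r) + r - c| = r - c * r := by
      rw [abs_of_nonneg] <;> nlinarith [hcm.1, hcm.2]
    have h4 : |c * (1 - r) - c| = c * r := by
      rw [abs_of_nonpos] <;> nlinarith [hcm.1, hcm.2]
    rw [h3] at h1
    rw [h4] at h2
    rw [abs_le] at h1 h2
    rw [Real.dist_eq]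
    have h5 : ((m : ℝ) + 1) * (F (c * (1 - r) + r) - F (c * (1 - r))) - g c =
        ((m : ℝ) + 1) * ((F (c * (1 - r) + r) - F c - (c * (1 - r) + r - c) * g c) -
          (F (c * (1 - r)) - F c - (c * (1 - r) - c) * g c)) := by
      have : ((m : ℝ) + 1) * ((c * (1 - r) + r - c) * g c - (c * (1 - r) - c) * g c) =
          (((m : ℝ) + 1) * r) * g c := by ring
      rw [hmr, one_mul] at this
      linarith
    rw [h5, abs_mul, abs_of_pos hmpos]
    have h6 : |(F (c * (1 - r) + r) - F c - (c * (1 - r) + r - c) * g c) -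
          (F (c * (1 - r)) - F c - (c * (1 - r) - c) * g c)| ≤ ε / 2 * r := by
      rw [abs_le]
      constructor <;> nlinarith [h1.1, h1.2, h2.1, h2.2]
    calc ((m : ℝ) + 1) * |(F (c * (1 - r) + r) - F c - (c * (1 - r) + r - c) * g c) -
          (F (c * (1 - r)) - F c - (c * (1 - r) - c) * g c)| ≤ ((m : ℝ) + 1) * (ε / 2 * r) :=
          mul_le_mul_of_nonneg_left h6 hmpos.le
      _ = ε / 2 * (((m : ℝ) + 1) * r) := by ring
      _ = ε / 2 := by rw [hmr, mul_one]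
      _ < ε := by linarith

/-- the composition of a list of functions -/
def comp (l : List (ℝ → ℝ)) : ℝ → ℝ := l.foldr (fun g h => g ∘ h) id

theorem exists_stage (l : List (ℝ → ℝ))
    (hl : ∀ g ∈ l, MapsTo g (Icc (0 : ℝ) 1) (Icc (0 : ℝ) 1) ∧
        ∃ F : ℝ → ℝ, ∀ x ∈ Icc (0 : ℝ) 1, HasDerivWithinAt F (g x) (Icc (0 : ℝ) 1) x) :
    MapsTo (comp l) (Icc (0 : ℝ) 1) (Icc (0 : ℝ) 1) ∧
    ∃ (τ : TopologicalSpace (Icc (0 : ℝ) 1)) (𝓑 : Set (Set (Icc (0 : ℝ) 1))),
      Stage τ (fun x => comp l x) 𝓑 ∧ univ ∈ 𝓑 ∧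
      (∀ O : Set ℝ, IsOpen O → IsOpen[τ] ((Subtype.val : Icc (0 : ℝ) 1 → ℝ) ⁻¹' O)) ∧
      (∀ D : Set (Icc (0 : ℝ) 1), IsOpen[τ] D → IsOpen[τ] Dᶜ → D = ∅ ∨ D = univ) := by
  induction l with
  | nil =>
    refine ⟨fun x hx => hx, inferInstance, _, Stage.base, ⟨univ, isOpen_univ, ordConnected_univ,
      by simp⟩, fun O hO => hO.preimage continuous_subtype_val, fun D hD hDc => ?_⟩
    have : PreconnectedSpace (Icc (0 : ℝ) 1) :=
      isPreconnected_iff_preconnectedSpace.mp isPreconnected_Icc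
    exact isClopen_iff.mp ⟨⟨hDc⟩, hD⟩
  | cons g l ih =>
    obtain ⟨hmaps, τ, 𝓑, S, hu, hv, hc⟩ := ih (fun g hg => hl g (List.mem_cons_of_mem _ hg))
    obtain ⟨hg, F, hF⟩ := hl g List.mem_cons_self
    have hf := darboux_of_deriv hF
    have hf1 := baireOne_of_deriv hF
    have hmaps' : MapsTo (comp (g :: l)) (Icc (0 : ℝ) 1) (Icc (0 : ℝ) 1) :=
      fun x hx => hg (hmaps hx)
    have heq : (fun x : Icc (0 : ℝ) 1 => g (clamp (comp l x))) =
        fun x : Icc (0 : ℝ) 1 => comp (g :: l) x := by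
      funext x
      rw [clamp_of_mem (hmaps x.2)]
      rfl
    have S' := S.step hf hf1
    rw [heq] at S'
    refine ⟨hmaps', _, _, S', ⟨univ, hu, -1, 2, ?_⟩, ?_, ?_⟩
    · symm
      rw [univ_inter]
      refine eq_univ_of_forall fun x => ?_
      have := hmaps' x.2
      exact ⟨by linarith [this.1], by linarith [this.2]⟩
    · intro O hO
      exact (hv O hO).mono inf_le_left
    · intro D hD hDc
      rw [← heq] at hD hDc
      obtain ⟨h1, h2⟩ := S.P hf hf1 hu (union_compl_self D) disjoint_compl_right hD hDc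
      exact hc D h1 h2

theorem main (l : List (ℝ → ℝ))
    (hl : ∀ g ∈ l, MapsTo g (Icc (0 : ℝ) 1) (Icc (0 : ℝ) 1) ∧
        ∃ F : ℝ → ℝ, ∀ x ∈ Icc (0 : ℝ) 1, HasDerivWithinAt F (g x) (Icc (0 : ℝ) 1) x) :
    IsConnected ((fun x : ℝ => (x, (l.foldr (fun g h => g ∘ h) id) x)) '' Icc (0 : ℝ) 1) := by
  obtain ⟨_, τ, 𝓑, S, _, hv, hc⟩ := exists_stage l hl
  refine ⟨⟨_, 0, by simp, rfl⟩, ?_⟩
  have himg : ((fun x : ℝ => (x, (l.foldr (fun g h => g ∘ h) id) x)) '' Icc (0 : ℝ) 1) =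
      (fun x : Icc (0 : ℝ) 1 => ((x : ℝ), comp l x)) '' univ := by
    ext p
    constructor
    · rintro ⟨x, hx, rfl⟩
      exact ⟨⟨x, hx⟩, mem_univ _, rfl⟩
    · rintro ⟨x, _, rfl⟩
      exact ⟨x, x.2, rfl⟩
  rw [himg]
  have hpre : @IsPreconnected _ τ (univ : Set (Icc (0 : ℝ) 1)) := by
    have : @PreconnectedSpace _ τ := by
      refine (@preconnectedSpace_iff_clopen _ τ).mpr fun D hD => ?_
      exact hc D hD.2 hD.1.isOpen_compl
    exact @isPreconnected_univ _ τ this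
  have hcont : @Continuous _ _ τ _ (fun x : Icc (0 : ℝ) 1 => ((x : ℝ), comp l x)) := by
    exact @Continuous.prodMk ℝ ℝ (Icc (0 : ℝ) 1) _ _ τ _ _ ⟨hv⟩ ⟨S.cont⟩
  exact @IsPreconnected.image _ _ τ _ _ hpre _ (@Continuous.continuousOn _ _ τ _ _ _ hcont)

end Pool.Agent.Helper52.CompDeriv
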