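import Mathlib

/-!
Definitions for the k-Menger / k-Rothberger problem.
-/

namespace Pool.Agent.Helper52.KMenger

/-- `𝒰` is a `k`-cover of `X`: every member is open and each compact subset of `X` is contained
in a member of `𝒰`. -/
def IsKCover {X : Type} [TopologicalSpace X] (𝒰 : Set (Set X)) : Prop :=
  (∀ U ∈ 𝒰, IsOpen U) ∧ ∀ K : Set X, IsCompact K → ∃ U ∈ 𝒰, K ⊆ U

/-- `X` is `k`-Menger: the selection principle `S_fin(𝒦_X, 𝒦_X)`. -/
def IsKMenger (X : Type) [TopologicalSpace X] : Prop :=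
  ∀ 𝒰 : ℕ → Set (Set X), (∀ n, IsKCover (𝒰 n)) →
    ∃ ℱ : ℕ → Set (Set X), (∀ n, (ℱ n).Finite ∧ ℱ n ⊆ 𝒰 n) ∧ IsKCover (⋃ n, ℱ n)

/-- `X` is `k`-Rothberger: the selection principle `S_1(𝒦_X, 𝒦_X)`. -/
def IsKRothberger (X : Type) [TopologicalSpace X] : Prop :=
  ∀ 𝒰 : ℕ → Set (Set X), (∀ n, IsKCover (𝒰 n)) →
    ∃ U : ℕ → Set X, (∀ n, U n ∈ 𝒰 n) ∧ IsKCover (Set.range U)

/-- P2 has a winning strategy in the game `G_fin(𝒦_X, 𝒦_X)`: a function `σ` computing P2's move in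
round `n` from P1's moves in rounds `0, …, n` such that, whenever P1 plays the `k`-covers
`𝒰 0, 𝒰 1, …`, every answer is a finite subset of P1's current move, and the union of the
answers is a `k`-cover. -/
def IsStrategicallyKMenger (X : Type) [TopologicalSpace X] : Prop :=
  ∃ σ : (n : ℕ) → (Fin (n + 1) → Set (Set X)) → Set (Set X),
    ∀ 𝒰 : ℕ → Set (Set X), (∀ n, IsKCover (𝒰 n)) →
      (∀ n, (σ n fun i => 𝒰 i).Finite ∧ (σ n fun i => 𝒰 i) ⊆ 𝒰 n) ∧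
        IsKCover (⋃ n, σ n fun i => 𝒰 i)

/-- P2 has a winning strategy in the game `G_1(𝒦_X, 𝒦_X)`. -/
def IsStrategicallyKRothberger (X : Type) [TopologicalSpace X] : Prop :=
  ∃ σ : (n : ℕ) → (Fin (n + 1) → Set (Set X)) → Set X,
    ∀ 𝒰 : ℕ → Set (Set X), (∀ n, IsKCover (𝒰 n)) →
      (∀ n, (σ n fun i => 𝒰 i) ∈ 𝒰 n) ∧ IsKCover (Set.range fun n => σ n fun i => 𝒰 i)

end Pool.Agent.Helper52.KMenger
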