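import Mathlib
import Pool.Agent.Helper52.KMengerDefs

/-!
The countable complement extension topology on the unit interval is strategically k-Menger
but not k-Rothberger.
-/

open Set Topology

namespace Pool.Agent.Helper52.KMenger

/-- strategically `k`-Menger implies `k`-Menger. -/
theorem IsStrategicallyKMenger.isKMenger {X : Type} [TopologicalSpace X]
    (h : IsStrategicallyKMenger X) : IsKMenger X := by
  obtain ⟨σ, hσ⟩ := h
  intro 𝒰 h𝒰
  exact ⟨fun n => σ n fun i => 𝒰 i, (hσ 𝒰 h𝒰).1, (hσ 𝒰 h𝒰).2⟩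

/-- strategically `k`-Rothberger implies `k`-Rothberger. -/
theorem IsStrategicallyKRothberger.isKRothberger {X : Type} [TopologicalSpace X]
    (h : IsStrategicallyKRothberger X) : IsKRothberger X := by
  obtain ⟨σ, hσ⟩ := h
  intro 𝒰 h𝒰
  exact ⟨fun n => σ n fun i => 𝒰 i, (hσ 𝒰 h𝒰).1, (hσ 𝒰 h𝒰).2⟩

/-- The unit interval. -/
abbrev I : Type := Set.Icc (0 : ℝ) 1

/-- The countable complement extension of the Euclidean topology on the unit interval: the open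
sets are the Euclidean open sets minus countable sets. -/
@[instance_reducible] def cce : TopologicalSpace I where
  IsOpen s := ∃ V : Set I, IsOpen V ∧ s ⊆ V ∧ (V \ s).Countable
  isOpen_univ := ⟨univ, isOpen_univ, subset_rfl, by simp⟩
  isOpen_inter := by
    rintro s t ⟨V, hV, hsV, hVs⟩ ⟨W, hW, htW, hWt⟩
    refine ⟨V ∩ W, hV.inter hW, inter_subset_inter hsV htW, (hVs.union hWt).mono ?_⟩
    rintro x ⟨⟨hxV, hxW⟩, hx⟩
    by_cases hxs : x ∈ s
    · exact Or.inr ⟨hxW, fun hxt => hx ⟨hxs, hxt⟩⟩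
    · exact Or.inl ⟨hxV, hxs⟩
  isOpen_sUnion := by
    intro S hS
    choose! V hV hsV hVs using hS
    obtain ⟨T, hTS, hTc, hT⟩ := TopologicalSpace.isOpen_biUnion_countable S V hV
    refine ⟨⋃ s ∈ S, V s, isOpen_biUnion hV, ?_, ?_⟩
    · rintro x ⟨s, hs, hxs⟩
      exact mem_biUnion hs (hsV s hs hxs)
    · rw [← hT]
      refine (hTc.biUnion fun s hs => hVs s (hTS hs)).mono ?_
      rintro x ⟨hx, hxS⟩
      simp only [mem_iUnion] at hx ⊢
      obtain ⟨s, hs, hxs⟩ := hx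
      exact ⟨s, hs, hxs, fun h => hxS ⟨s, hTS hs, h⟩⟩

theorem cce_isOpen_iff (s : Set I) :
    IsOpen[cce] s ↔ ∃ V : Set I, IsOpen V ∧ s ⊆ V ∧ (V \ s).Countable := Iff.rfl

theorem cce_isOpen_of_isOpen {s : Set I} (hs : IsOpen s) : IsOpen[cce] s :=
  ⟨s, hs, subset_rfl, by simp⟩

theorem cce_isOpen_compl {C : Set I} (hC : C.Countable) : IsOpen[cce] Cᶜ :=
  ⟨univ, isOpen_univ, subset_univ _, by simpa using hC⟩

/-- The countable complement extension is Hausdorff. -/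
theorem cce_t2 : @T2Space I cce := by
  refine @T2Space.mk I cce ?_
  intro x y hxy
  obtain ⟨u, v, hu, hv, hxu, hyv, huv⟩ := t2_separation hxy
  exact ⟨u, v, cce_isOpen_of_isOpen hu, cce_isOpen_of_isOpen hv, hxu, hyv, huv⟩

/-- Compact sets in the countable complement extension are finite. -/
theorem cce_finite_of_isCompact {K : Set I} (hK : @IsCompact I cce K) : K.Finite := by
  by_contra hinf
  have hinf : K.Infinite := hinf
  let A : Set I := Set.range (fun n => ((hinf.natEmbedding K n : K) : I))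
  have hAinf : A.Infinite := by
    refine Set.infinite_range_of_injective ?_
    intro m n hmn
    exact (hinf.natEmbedding K).injective (Subtype.ext hmn)
  have hAc : A.Countable := countable_range _
  have hAK : A ⊆ K := by
    rintro _ ⟨n, rfl⟩
    exact (hinf.natEmbedding K n).2
  obtain ⟨t, ht⟩ := @IsCompact.elim_finite_subcover I cce K A hK
    (fun a : A => (A \ {(a : I)})ᶜ)
    (fun a => cce_isOpen_compl (hAc.mono sdiff_subset)) (by
      intro x _
      rw [mem_iUnion]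
      by_cases hx : x ∈ A
      · exact ⟨⟨x, hx⟩, by simp⟩
      · obtain ⟨a, ha⟩ := hAinf.nonempty
        exact ⟨⟨a, ha⟩, fun h => hx h.1⟩)
  have hAt : A ⊆ (fun a : A => (a : I)) '' (t : Set A) := by
    intro x hx
    have := ht (hAK hx)
    simp only [mem_iUnion] at this
    obtain ⟨a, hat, hxa⟩ := this
    by_cases hxa' : x = a
    · exact ⟨a, hat, hxa'.symm⟩
    · exact absurd ⟨hx, hxa'⟩ hxa
  exact hAinf ((t.finite_toSet.image _).subset hAt)

/-- `X` is not `k`-Rothberger. -/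
theorem cce_not_isKRothberger : ¬ @IsKRothberger I cce := by
  intro h
  let ε : ℕ → ENNReal := fun n => 2⁻¹ ^ (n + 2)
  let 𝒰 : ℕ → Set (Set I) := fun n => {U | IsOpen[cce] U ∧ MeasureTheory.volume U < ε n}
  have h𝒰 : ∀ n, @IsKCover I cce (𝒰 n) := by
    intro n
    refine ⟨fun U hU => hU.1, fun K hK => ?_⟩
    have hfin := cce_finite_of_isCompact hK
    have h0 : MeasureTheory.volume K = 0 := hfin.measure_zero _
    have hpos : MeasureTheory.volume K < ε n := by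
      rw [h0]
      exact pos_iff_ne_zero.mpr (by simp [ε])
    obtain ⟨V, hKV, hV, hVε⟩ := Set.exists_isOpen_lt_of_lt K _ hpos
    exact ⟨V, ⟨cce_isOpen_of_isOpen hV, hVε⟩, hKV⟩
  obtain ⟨U, hU, hUk⟩ := h 𝒰 h𝒰
  have hcov : (univ : Set I) ⊆ ⋃ n, U n := by
    intro x _
    obtain ⟨W, ⟨n, rfl⟩, hx⟩ := hUk.2 {x} (@isCompact_singleton I cce x)
    exact mem_iUnion.mpr ⟨n, hx rfl⟩
  have h1 : MeasureTheory.volume (univ : Set I) = 1 := by
    simp
  have h2 : MeasureTheory.volume (univ : Set I) ≤ ∑' n, ε n :=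
    (MeasureTheory.measure_mono hcov).trans ((MeasureTheory.measure_iUnion_le U).trans
      (ENNReal.tsum_le_tsum fun n => (hU n).2.le))
  have h3 : ∑' n, ε n = 2⁻¹ := by
    simp only [ε, pow_add]
    rw [ENNReal.tsum_mul_right, ENNReal.tsum_geometric]
    rw [ENNReal.one_sub_inv_two, inv_inv, pow_two, ← mul_assoc,
      ENNReal.mul_inv_cancel (by norm_num) (by norm_num), one_mul]
  rw [h1, h3] at h2
  exact absurd h2 (by
    rw [not_le]
    exact ENNReal.inv_lt_one.mpr (by norm_num))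

/-- Compactness argument for one finite set `S` and `m`-tuples. -/
theorem key1 (𝒰 : Set (Set I)) (h : @IsKCover I cce 𝒰) (S : Set I) (hS : S.Finite) (m : ℕ) :
    ∃ (ℱ : Set (Set I)) (C : Set I), ℱ.Finite ∧ ℱ ⊆ 𝒰 ∧ C.Countable ∧
      ∀ t : Fin m → I, ∃ U ∈ ℱ, S ⊆ U ∧ (range t ⊆ U ∨ ∃ i, t i ∈ C) := by
  have hex : ∀ t : Fin m → I, ∃ U ∈ 𝒰, S ∪ range t ⊆ U := by
    intro t
    exact h.2 _ (@Set.Finite.isCompact I cce _ (hS.union (finite_range t)))
  choose U hU hSU using hex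
  have hV : ∀ t : Fin m → I, ∃ V : Set I, IsOpen V ∧ U t ⊆ V ∧ (V \ U t).Countable :=
    fun t => h.1 _ (hU t)
  choose V hV hUV hVU using hV
  obtain ⟨T, hT⟩ := (isCompact_univ (X := Fin m → I)).elim_finite_subcover
    (fun t : Fin m → I => Set.pi univ fun _ => V t)
    (fun t => isOpen_set_pi finite_univ fun _ _ => hV t) (by
      intro t _
      refine mem_iUnion.mpr ⟨t, fun i _ => hUV t (hSU t (Or.inr ⟨i, rfl⟩))⟩)
  refine ⟨U '' (T : Set (Fin m → I)), ⋃ t ∈ T, (V t \ U t), T.finite_toSet.image _, ?_, ?_, ?_⟩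
  · rintro _ ⟨t, _, rfl⟩
    exact hU t
  · exact (T.countable_toSet).biUnion fun t _ => hVU t
  · intro t
    have := hT (mem_univ t)
    simp only [mem_iUnion] at this
    obtain ⟨s, hs, hts⟩ := this
    refine ⟨U s, ⟨s, hs, rfl⟩, fun x hx => hSU s (Or.inl hx), ?_⟩
    by_cases hr : range t ⊆ U s
    · exact Or.inl hr
    · right
      rw [not_subset] at hr
      obtain ⟨_, ⟨i, rfl⟩, hi⟩ := hr
      exact ⟨i, mem_biUnion hs ⟨hts i (mem_univ _), hi⟩⟩

/-- The same for all subsets `S` of a finite set `D` and all `m ≤ n`. -/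
theorem key2 (𝒰 : Set (Set I)) (D : Set I) (n : ℕ) :
    ∃ (ℱ : Set (Set I)) (e : ℕ → I), @IsKCover I cce 𝒰 → D.Finite → ℱ.Finite ∧ ℱ ⊆ 𝒰 ∧
      ∀ S ⊆ D, ∀ m ≤ n, ∀ t : Fin m → I, ∃ U ∈ ℱ, S ⊆ U ∧ (range t ⊆ U ∨ ∃ i, t i ∈ range e) := by
  by_cases h : @IsKCover I cce 𝒰 ∧ D.Finite
  swap
  · exact ⟨∅, fun _ => 0, fun h1 h2 => absurd ⟨h1, h2⟩ h⟩
  obtain ⟨h, hD⟩ := h
  choose! ℱ C hF hFU hC ht using fun (S : Set I) (hS : S.Finite) (m : ℕ) => key1 𝒰 h S hS m
  let C' : Set I := ⋃ S ∈ 𝒫 D, ⋃ m ∈ Set.Iic n, C S m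
  have hC' : C'.Countable := by
    refine (hD.finite_subsets.countable).biUnion fun S hS => ?_
    exact ((Set.finite_Iic n).countable).biUnion fun m _ => hC S (hD.subset hS) m
  obtain ⟨e, he⟩ : ∃ e : ℕ → I, C' ⊆ range e := by
    rcases C'.eq_empty_or_nonempty with h0 | h0
    · exact ⟨fun _ => 0, by simp [h0]⟩
    · obtain ⟨e, he⟩ := hC'.exists_eq_range h0
      exact ⟨e, he.subset⟩
  refine ⟨⋃ S ∈ 𝒫 D, ⋃ m ∈ Set.Iic n, ℱ S m, e, fun _ _ => ⟨?_, ?_, ?_⟩⟩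
  · refine hD.finite_subsets.biUnion fun S hS => ?_
    exact (Set.finite_Iic n).biUnion fun m _ => hF S (hD.subset hS) m
  · refine iUnion₂_subset fun S hS => iUnion₂_subset fun m _ => hFU S (hD.subset hS) m
  · intro S hS m hm t
    obtain ⟨U, hU, hSU, htU⟩ := ht S (hD.subset hS) m t
    refine ⟨U, mem_biUnion hS (mem_biUnion hm hU), hSU, ?_⟩
    rcases htU with h1 | ⟨i, hi⟩
    · exact Or.inl h1
    · exact Or.inr ⟨i, he (mem_biUnion hS (mem_biUnion hm hi))⟩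

/-- finite family chosen by P2 -/
noncomputable def fam (𝒰 : Set (Set I)) (D : Set I) (n : ℕ) : Set (Set I) :=
  (key2 𝒰 D n).choose

/-- enumeration of exceptional points -/
noncomputable def enu (𝒰 : Set (Set I)) (D : Set I) (n : ℕ) : ℕ → I :=
  (key2 𝒰 D n).choose_spec.choose

theorem fam_spec (𝒰 : Set (Set I)) (D : Set I) (n : ℕ) (h : @IsKCover I cce 𝒰) (hD : D.Finite) :
    (fam 𝒰 D n).Finite ∧ fam 𝒰 D n ⊆ 𝒰 ∧ ∀ S ⊆ D, ∀ m ≤ n, ∀ t : Fin m → I,
      ∃ U ∈ fam 𝒰 D n, S ⊆ U ∧ (range t ⊆ U ∨ ∃ i, t i ∈ range (enu 𝒰 D n)) :=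
  (key2 𝒰 D n).choose_spec.choose_spec h hD

/-- The finite set of points considered so far, given the list of enumerations so far. -/
def pts (l : List (ℕ → I)) : Set I := {x | ∃ e ∈ l, ∃ j < l.length, e j = x}

theorem pts_finite (l : List (ℕ → I)) : (pts l).Finite := by
  have : pts l = ⋃ e ∈ {e | e ∈ l}, e '' {j | j < l.length} := by
    ext x
    simp [pts]
  rw [this]
  exact (List.finite_toSet l).biUnion fun e _ => (Set.finite_lt_nat _).image e

/-- P2's memory before round `n`. -/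
noncomputable def mem (𝒰 : ℕ → Set (Set I)) : ℕ → List (ℕ → I)
  | 0 => []
  | n + 1 => enu (𝒰 n) (pts (mem 𝒰 n)) n :: mem 𝒰 n

theorem mem_length (𝒰 : ℕ → Set (Set I)) (n : ℕ) : (mem 𝒰 n).length = n := by
  induction n with
  | zero => rfl
  | succ n ih => simp [mem, ih]

theorem mem_congr (𝒰 𝒱 : ℕ → Set (Set I)) (n : ℕ) (h : ∀ i < n, 𝒰 i = 𝒱 i) :
    mem 𝒰 n = mem 𝒱 n := by
  induction n with
  | zero => rfl
  | succ n ih =>
    simp only [mem]
    rw [ih fun i hi => h i (hi.trans (Nat.lt_succ_self n)), h n (Nat.lt_succ_self n)]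

theorem mem_mono (𝒰 : ℕ → Set (Set I)) {m n : ℕ} (h : m ≤ n) (e : ℕ → I) (he : e ∈ mem 𝒰 m) :
    e ∈ mem 𝒰 n := by
  induction n, h using Nat.le_induction with
  | base => exact he
  | succ n _ ih => exact List.mem_cons_of_mem _ ih

theorem pts_mono (𝒰 : ℕ → Set (Set I)) {m n : ℕ} (h : m ≤ n) :
    pts (mem 𝒰 m) ⊆ pts (mem 𝒰 n) := by
  rintro x ⟨e, he, j, hj, rfl⟩
  refine ⟨e, mem_mono 𝒰 h e he, j, ?_, rfl⟩
  rw [mem_length] at hj ⊢
  omega

theorem enu_subset (𝒰 : ℕ → Set (Set I)) (n : ℕ) (x : I)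
    (hx : x ∈ range (enu (𝒰 n) (pts (mem 𝒰 n)) n)) : ∃ N, x ∈ pts (mem 𝒰 N) := by
  obtain ⟨j, rfl⟩ := hx
  refine ⟨n + 1 + (j + 1), enu (𝒰 n) (pts (mem 𝒰 n)) n, ?_, j, ?_, rfl⟩
  · refine mem_mono 𝒰 (m := n + 1) (by omega) _ ?_
    exact List.mem_cons_self
  · rw [mem_length]
    omega

/-- P2's strategy. -/
noncomputable def strat (n : ℕ) (h : Fin (n + 1) → Set (Set I)) : Set (Set I) :=
  let 𝒰 : ℕ → Set (Set I) := fun i => if hi : i < n + 1 then h ⟨i, hi⟩ else ∅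
  fam (𝒰 n) (pts (mem 𝒰 n)) n

theorem strat_eq (𝒰 : ℕ → Set (Set I)) (n : ℕ) :
    strat n (fun i => 𝒰 i) = fam (𝒰 n) (pts (mem 𝒰 n)) n := by
  unfold strat
  simp only [Nat.lt_succ_self, dite_true]
  congr 2
  refine mem_congr _ _ n fun i hi => ?_
  simp [hi.trans (Nat.lt_succ_self n)]

/-- `X` is strategically `k`-Menger. -/
theorem cce_isStrategicallyKMenger : @IsStrategicallyKMenger I cce := by
  refine ⟨strat, fun 𝒰 h𝒰 => ?_⟩
  simp only [strat_eq]
  have hspec := fun n => fam_spec (𝒰 n) (pts (mem 𝒰 n)) n (h𝒰 n) (pts_finite _)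
  refine ⟨fun n => ⟨(hspec n).1, (hspec n).2.1⟩, ?_, ?_⟩
  · intro U hU
    obtain ⟨n, hn⟩ := mem_iUnion.mp hU
    exact (h𝒰 n).1 U ((hspec n).2.1 hn)
  · intro K hK
    have hKfin := cce_finite_of_isCompact hK
    classical
    let P : Set I := ⋃ n, pts (mem 𝒰 n)
    have hSfin : (K ∩ P).Finite := hKfin.inter_of_left P
    have hTfin : (K \ P).Finite := hKfin.sdiff
    obtain ⟨N, hN⟩ : ∃ N, K ∩ P ⊆ pts (mem 𝒰 N) := by
      have := hSfin
      choose! f hf using fun (x : I) (hx : x ∈ K ∩ P) => mem_iUnion.mp hx.2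
      refine ⟨hSfin.toFinset.sup f, fun x hx => ?_⟩
      exact pts_mono 𝒰 (Finset.le_sup (f := f) (hSfin.mem_toFinset.mpr hx)) (hf x hx)
    let T := hTfin.toFinset
    let n := max N T.card
    obtain ⟨U, hU, hSU, hTU⟩ := (hspec n).2.2 (K ∩ P)
      (hN.trans (pts_mono 𝒰 (le_max_left _ _))) T.card (le_max_right _ _)
      (fun i => ((T.equivFin.symm i : T) : I))
    refine ⟨U, mem_iUnion.mpr ⟨n, hU⟩, ?_⟩
    rcases hTU with hTU | ⟨i, hi⟩
    · intro x hx
      by_cases hxP : x ∈ P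
      · exact hSU ⟨hx, hxP⟩
      · have hxT : x ∈ T := hTfin.mem_toFinset.mpr ⟨hx, hxP⟩
        exact hTU ⟨T.equivFin ⟨x, hxT⟩, by simp⟩
    · exfalso
      obtain ⟨M, hM⟩ := enu_subset 𝒰 n _ hi
      have hT : ((T.equivFin.symm i : T) : I) ∈ K \ P :=
        hTfin.mem_toFinset.mp (T.equivFin.symm i).2
      exact hT.2 (mem_iUnion.mpr ⟨M, hM⟩)

end Pool.Agent.Helper52.KMenger
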