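import Pool.Agent.Helper37.Dis.Par
import Pool.Agent.Helper37.Dis.Final
import Pool.Agent.Helper37.Dis.Sq8

/-!
A triangle with angles `π/8, π/4, 5π/8` can be dissected into mirrored similar copies: the data of a
hierarchical dissection (two hexagons, two quadrilaterals, a right isosceles triangle, the target),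
checked by the kernel.
-/

namespace Pool.Agent.Helper52.MirrorTri

open Pool.Agent.Helper37.Dis

def sqE : Entry := ⟨⟨⟨-16, 0⟩, ⟨0, 0⟩⟩, ⟨⟨0, 0⟩, ⟨0, 0⟩⟩, [⟨⟨⟨-16, 0⟩, ⟨0, 0⟩⟩, ⟨⟨0, 0⟩, ⟨0, 0⟩⟩, ⟨⟨0, 0⟩, ⟨16, 0⟩⟩⟩, ⟨⟨⟨-16, 0⟩, ⟨0, 0⟩⟩, ⟨⟨0, 0⟩, ⟨16, 0⟩⟩, ⟨⟨-16, 0⟩, ⟨16, 0⟩⟩⟩]⟩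

theorem sqE_tl : Tl (gset sqE.l) := by
  have h := sq_tl
  unfold sqR at h
  rw [← gset_quad] at h
  exact h

def hexAR : Reg := .P ⟨⟨0, 0⟩, ⟨0, 0⟩⟩ ⟨⟨3, 3⟩, ⟨3, 0⟩⟩ [⟨⟨0, 6⟩, ⟨6, 0⟩⟩, ⟨⟨0, 6⟩, ⟨0, 6⟩⟩, ⟨⟨-6, 0⟩, ⟨0, 6⟩⟩, ⟨⟨-3, 0⟩, ⟨-3, 3⟩⟩]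

def hexAE : Entry := ⟨⟨⟨0, 0⟩, ⟨0, 0⟩⟩, ⟨⟨3, 3⟩, ⟨3, 0⟩⟩, [⟨⟨⟨0, 0⟩, ⟨0, 0⟩⟩, ⟨⟨3, 3⟩, ⟨3, 0⟩⟩, ⟨⟨0, 6⟩, ⟨6, 0⟩⟩⟩, ⟨⟨⟨0, 0⟩, ⟨0, 0⟩⟩, ⟨⟨0, 6⟩, ⟨6, 0⟩⟩, ⟨⟨0, 6⟩, ⟨0, 6⟩⟩⟩, ⟨⟨⟨0, 0⟩, ⟨0, 0⟩⟩, ⟨⟨0, 6⟩, ⟨0, 6⟩⟩, ⟨⟨-6, 0⟩, ⟨0, 6⟩⟩⟩, ⟨⟨⟨0, 0⟩, ⟨0, 0⟩⟩, ⟨⟨-6, 0⟩, ⟨0, 6⟩⟩, ⟨⟨-3, 0⟩, ⟨-3, 3⟩⟩⟩]⟩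

def hexAP : List Pc := [
  .M ⟨⟨⟨-2, 2⟩, ⟨0, 4⟩⟩, ⟨⟨0, 3⟩, ⟨0, 3⟩⟩, ⟨⟨0, 4⟩, ⟨0, 4⟩⟩⟩,
  .M ⟨⟨⟨-6, 0⟩, ⟨0, 6⟩⟩, ⟨⟨-2, 2⟩, ⟨0, 4⟩⟩, ⟨⟨-2, 4⟩, ⟨0, 6⟩⟩⟩,
  .M ⟨⟨⟨-2, 3⟩, ⟨2, 1⟩⟩, ⟨⟨0, 1⟩, ⟨2, 1⟩⟩, ⟨⟨-3, 3⟩, ⟨3, 0⟩⟩⟩,
  .M ⟨⟨⟨-1, 3⟩, ⟨3, 0⟩⟩, ⟨⟨3, 3⟩, ⟨3, 0⟩⟩, ⟨⟨1, 5⟩, ⟨5, 0⟩⟩⟩,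
  .M ⟨⟨⟨2, 2⟩, ⟨2, 0⟩⟩, ⟨⟨-2, 2⟩, ⟨2, 0⟩⟩, ⟨⟨0, 0⟩, ⟨0, 0⟩⟩⟩,
  .M ⟨⟨⟨0, 3⟩, ⟨0, 3⟩⟩, ⟨⟨0, 4⟩, ⟨2, 2⟩⟩, ⟨⟨0, 4⟩, ⟨0, 4⟩⟩⟩,
  .M ⟨⟨⟨0, 5⟩, ⟨0, 5⟩⟩, ⟨⟨0, 6⟩, ⟨2, 4⟩⟩, ⟨⟨0, 6⟩, ⟨0, 6⟩⟩⟩,
  .M ⟨⟨⟨0, 4⟩, ⟨2, 2⟩⟩, ⟨⟨0, 6⟩, ⟨6, 0⟩⟩, ⟨⟨0, 6⟩, ⟨2, 4⟩⟩⟩,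
  .M ⟨⟨⟨0, 5⟩, ⟨2, 3⟩⟩, ⟨⟨0, 4⟩, ⟨0, 4⟩⟩, ⟨⟨0, 4⟩, ⟨2, 2⟩⟩⟩,
  .M ⟨⟨⟨0, 1⟩, ⟨2, 1⟩⟩, ⟨⟨-2, 1⟩, ⟨0, 1⟩⟩, ⟨⟨0, 0⟩, ⟨0, 0⟩⟩⟩,
  .M ⟨⟨⟨-2, 1⟩, ⟨0, 1⟩⟩, ⟨⟨0, 1⟩, ⟨2, 1⟩⟩, ⟨⟨-2, 2⟩, ⟨2, 2⟩⟩⟩,
  .M ⟨⟨⟨-2, 1⟩, ⟨0, 1⟩⟩, ⟨⟨-2, 2⟩, ⟨2, 2⟩⟩, ⟨⟨-2, 1⟩, ⟨2, 3⟩⟩⟩,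
  .M ⟨⟨⟨-3, 0⟩, ⟨-1, 3⟩⟩, ⟨⟨-3, 0⟩, ⟨1, 3⟩⟩, ⟨⟨-4, 0⟩, ⟨0, 4⟩⟩⟩,
  .M ⟨⟨⟨-2, 0⟩, ⟨0, 2⟩⟩, ⟨⟨-2, 0⟩, ⟨2, 2⟩⟩, ⟨⟨-3, 0⟩, ⟨1, 3⟩⟩⟩,
  .M ⟨⟨⟨-3, 0⟩, ⟨1, 3⟩⟩, ⟨⟨-3, 0⟩, ⟨-1, 3⟩⟩, ⟨⟨-2, 0⟩, ⟨0, 2⟩⟩⟩,
  .M ⟨⟨⟨-5, 0⟩, ⟨-1, 5⟩⟩, ⟨⟨-5, 0⟩, ⟨1, 5⟩⟩, ⟨⟨-6, 0⟩, ⟨0, 6⟩⟩⟩,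
  .M ⟨⟨⟨-2, 1⟩, ⟨0, 1⟩⟩, ⟨⟨-2, 1⟩, ⟨2, 3⟩⟩, ⟨⟨-3, 0⟩, ⟨3, 3⟩⟩⟩,
  .M ⟨⟨⟨-2, 0⟩, ⟨2, 2⟩⟩, ⟨⟨-2, 0⟩, ⟨0, 2⟩⟩, ⟨⟨-1, 0⟩, ⟨1, 1⟩⟩⟩,
  .M ⟨⟨⟨-3, 0⟩, ⟨3, 3⟩⟩, ⟨⟨-3, 0⟩, ⟨1, 3⟩⟩, ⟨⟨-2, 0⟩, ⟨2, 2⟩⟩⟩,
  .M ⟨⟨⟨-2, 2⟩, ⟨2, 2⟩⟩, ⟨⟨0, 1⟩, ⟨2, 1⟩⟩, ⟨⟨-2, 3⟩, ⟨2, 1⟩⟩⟩,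
  .M ⟨⟨⟨-2, 1⟩, ⟨2, 3⟩⟩, ⟨⟨-2, 3⟩, ⟨2, 1⟩⟩, ⟨⟨0, 3⟩, ⟨0, 3⟩⟩⟩,
  .M ⟨⟨⟨-4, 0⟩, ⟨0, 4⟩⟩, ⟨⟨-4, 0⟩, ⟨-2, 4⟩⟩, ⟨⟨-3, 0⟩, ⟨-1, 3⟩⟩⟩,
  .M ⟨⟨⟨-4, 0⟩, ⟨-2, 4⟩⟩, ⟨⟨-4, 0⟩, ⟨0, 4⟩⟩, ⟨⟨-5, 0⟩, ⟨-1, 5⟩⟩⟩,
  .M ⟨⟨⟨-2, 0⟩, ⟨0, 2⟩⟩, ⟨⟨-2, 0⟩, ⟨-2, 2⟩⟩, ⟨⟨-1, 0⟩, ⟨-1, 1⟩⟩⟩,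
  .M ⟨⟨⟨-2, 0⟩, ⟨-2, 2⟩⟩, ⟨⟨-2, 0⟩, ⟨0, 2⟩⟩, ⟨⟨-3, 0⟩, ⟨-1, 3⟩⟩⟩,
  .M ⟨⟨⟨-3, 0⟩, ⟨-1, 3⟩⟩, ⟨⟨-3, 0⟩, ⟨-3, 3⟩⟩, ⟨⟨-2, 0⟩, ⟨-2, 2⟩⟩⟩,
  .M ⟨⟨⟨-3, 0⟩, ⟨-3, 3⟩⟩, ⟨⟨-3, 0⟩, ⟨-1, 3⟩⟩, ⟨⟨-4, 0⟩, ⟨-2, 4⟩⟩⟩,
  .M ⟨⟨⟨-3, 0⟩, ⟨1, 3⟩⟩, ⟨⟨-3, 0⟩, ⟨3, 3⟩⟩, ⟨⟨-4, 0⟩, ⟨2, 4⟩⟩⟩,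
  .M ⟨⟨⟨-4, 0⟩, ⟨2, 4⟩⟩, ⟨⟨-4, 0⟩, ⟨0, 4⟩⟩, ⟨⟨-3, 0⟩, ⟨1, 3⟩⟩⟩,
  .M ⟨⟨⟨-4, 0⟩, ⟨0, 4⟩⟩, ⟨⟨-4, 0⟩, ⟨2, 4⟩⟩, ⟨⟨-5, 0⟩, ⟨1, 5⟩⟩⟩,
  .M ⟨⟨⟨-5, 0⟩, ⟨1, 5⟩⟩, ⟨⟨-5, 0⟩, ⟨-1, 5⟩⟩, ⟨⟨-4, 0⟩, ⟨0, 4⟩⟩⟩,
  .M ⟨⟨⟨0, 4⟩, ⟨0, 4⟩⟩, ⟨⟨-2, 3⟩, ⟨0, 5⟩⟩, ⟨⟨-2, 2⟩, ⟨0, 4⟩⟩⟩,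
  .M ⟨⟨⟨-2, 3⟩, ⟨0, 5⟩⟩, ⟨⟨0, 4⟩, ⟨0, 4⟩⟩, ⟨⟨0, 5⟩, ⟨0, 5⟩⟩⟩,
  .M ⟨⟨⟨0, 5⟩, ⟨0, 5⟩⟩, ⟨⟨-2, 4⟩, ⟨0, 6⟩⟩, ⟨⟨-2, 3⟩, ⟨0, 5⟩⟩⟩,
  .M ⟨⟨⟨-2, 4⟩, ⟨0, 6⟩⟩, ⟨⟨0, 5⟩, ⟨0, 5⟩⟩, ⟨⟨0, 6⟩, ⟨0, 6⟩⟩⟩,
  .M ⟨⟨⟨-1, 0⟩, ⟨1, 1⟩⟩, ⟨⟨-1, 0⟩, ⟨-1, 1⟩⟩, ⟨⟨0, 0⟩, ⟨0, 0⟩⟩⟩,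
  .M ⟨⟨⟨-1, 0⟩, ⟨-1, 1⟩⟩, ⟨⟨-1, 0⟩, ⟨1, 1⟩⟩, ⟨⟨-2, 0⟩, ⟨0, 2⟩⟩⟩,
  .M ⟨⟨⟨-2, 2⟩, ⟨2, 0⟩⟩, ⟨⟨0, 2⟩, ⟨2, 0⟩⟩, ⟨⟨-1, 3⟩, ⟨3, 0⟩⟩⟩,
  .M ⟨⟨⟨1, 3⟩, ⟨3, 0⟩⟩, ⟨⟨-1, 3⟩, ⟨3, 0⟩⟩, ⟨⟨0, 2⟩, ⟨2, 0⟩⟩⟩,
  .M ⟨⟨⟨0, 2⟩, ⟨2, 0⟩⟩, ⟨⟨2, 2⟩, ⟨2, 0⟩⟩, ⟨⟨1, 3⟩, ⟨3, 0⟩⟩⟩,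
  .M ⟨⟨⟨3, 3⟩, ⟨3, 0⟩⟩, ⟨⟨1, 3⟩, ⟨3, 0⟩⟩, ⟨⟨2, 2⟩, ⟨2, 0⟩⟩⟩,
  .M ⟨⟨⟨-1, 3⟩, ⟨3, 0⟩⟩, ⟨⟨-3, 3⟩, ⟨3, 0⟩⟩, ⟨⟨-2, 2⟩, ⟨2, 0⟩⟩⟩,
  .M ⟨⟨⟨-3, 3⟩, ⟨3, 0⟩⟩, ⟨⟨-1, 3⟩, ⟨3, 0⟩⟩, ⟨⟨-2, 4⟩, ⟨4, 0⟩⟩⟩,
  .M ⟨⟨⟨0, 4⟩, ⟨4, 0⟩⟩, ⟨⟨-2, 4⟩, ⟨4, 0⟩⟩, ⟨⟨-1, 3⟩, ⟨3, 0⟩⟩⟩,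
  .M ⟨⟨⟨-2, 4⟩, ⟨4, 0⟩⟩, ⟨⟨0, 4⟩, ⟨4, 0⟩⟩, ⟨⟨-1, 5⟩, ⟨5, 0⟩⟩⟩,
  .M ⟨⟨⟨0, 4⟩, ⟨0, 4⟩⟩, ⟨⟨0, 5⟩, ⟨2, 3⟩⟩, ⟨⟨0, 5⟩, ⟨0, 5⟩⟩⟩,
  .M ⟨⟨⟨0, 6⟩, ⟨2, 4⟩⟩, ⟨⟨0, 5⟩, ⟨0, 5⟩⟩, ⟨⟨0, 5⟩, ⟨2, 3⟩⟩⟩,
  .M ⟨⟨⟨1, 5⟩, ⟨5, 0⟩⟩, ⟨⟨-1, 5⟩, ⟨5, 0⟩⟩, ⟨⟨0, 4⟩, ⟨4, 0⟩⟩⟩,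
  .M ⟨⟨⟨-1, 5⟩, ⟨5, 0⟩⟩, ⟨⟨1, 5⟩, ⟨5, 0⟩⟩, ⟨⟨0, 6⟩, ⟨6, 0⟩⟩⟩]

theorem hexA_check : check hexAR (flat hexAP) = true := by decide +kernel

theorem hexA_ok : okAll [] hexAP = true := by decide +kernel

theorem hexA_tl : Tl hexAR.set :=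
  Tl_of_pieces (lib := []) (AllTl_spec (l := []) trivial) hexA_check hexA_ok

theorem hexAE_tl : Tl (gset hexAE.l) := Tl_entry hexA_tl (by decide +kernel)

def hexBR : Reg := .P ⟨⟨0, 0⟩, ⟨0, 0⟩⟩ ⟨⟨2, 2⟩, ⟨2, 0⟩⟩ [⟨⟨-2, 0⟩, ⟨6, 2⟩⟩, ⟨⟨-4, 0⟩, ⟨4, 0⟩⟩, ⟨⟨-6, 2⟩, ⟨2, 0⟩⟩, ⟨⟨-2, 0⟩, ⟨-2, 2⟩⟩]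

def hexBE : Entry := ⟨⟨⟨0, 0⟩, ⟨0, 0⟩⟩, ⟨⟨2, 2⟩, ⟨2, 0⟩⟩, [⟨⟨⟨0, 0⟩, ⟨0, 0⟩⟩, ⟨⟨2, 2⟩, ⟨2, 0⟩⟩, ⟨⟨-2, 0⟩, ⟨6, 2⟩⟩⟩, ⟨⟨⟨0, 0⟩, ⟨0, 0⟩⟩, ⟨⟨-2, 0⟩, ⟨6, 2⟩⟩, ⟨⟨-4, 0⟩, ⟨4, 0⟩⟩⟩, ⟨⟨⟨0, 0⟩, ⟨0, 0⟩⟩, ⟨⟨-4, 0⟩, ⟨4, 0⟩⟩, ⟨⟨-6, 2⟩, ⟨2, 0⟩⟩⟩, ⟨⟨⟨0, 0⟩, ⟨0, 0⟩⟩, ⟨⟨-6, 2⟩, ⟨2, 0⟩⟩, ⟨⟨-2, 0⟩, ⟨-2, 2⟩⟩⟩]⟩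

def hexBP : List Pc := [
  .M ⟨⟨⟨-1, 0⟩, ⟨-1, 1⟩⟩, ⟨⟨0, 0⟩, ⟨0, 0⟩⟩, ⟨⟨-1, 1⟩, ⟨-1, 1⟩⟩⟩,
  .M ⟨⟨⟨2, 2⟩, ⟨2, 0⟩⟩, ⟨⟨0, 2⟩, ⟨2, 0⟩⟩, ⟨⟨1, 1⟩, ⟨1, 0⟩⟩⟩,
  .M ⟨⟨⟨0, 0⟩, ⟨0, 0⟩⟩, ⟨⟨1, 1⟩, ⟨1, 0⟩⟩, ⟨⟨1, 1⟩, ⟨1, 1⟩⟩⟩,
  .M ⟨⟨⟨-4, 1⟩, ⟨2, 1⟩⟩, ⟨⟨-2, 1⟩, ⟨4, 1⟩⟩, ⟨⟨-4, 2⟩, ⟨4, 2⟩⟩⟩,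
  .M ⟨⟨⟨-5, 2⟩, ⟨3, 1⟩⟩, ⟨⟨-5, 1⟩, ⟨3, 0⟩⟩, ⟨⟨-6, 2⟩, ⟨2, 0⟩⟩⟩,
  .M ⟨⟨⟨-4, 2⟩, ⟨4, 2⟩⟩, ⟨⟨-4, 1⟩, ⟨4, 1⟩⟩, ⟨⟨-5, 2⟩, ⟨3, 1⟩⟩⟩,
  .M ⟨⟨⟨-5, 1⟩, ⟨3, 0⟩⟩, ⟨⟨-5, 2⟩, ⟨3, 1⟩⟩, ⟨⟨-4, 1⟩, ⟨4, 1⟩⟩⟩,
  .M ⟨⟨⟨-4, 1⟩, ⟨4, 1⟩⟩, ⟨⟨-4, 0⟩, ⟨4, 0⟩⟩, ⟨⟨-5, 1⟩, ⟨3, 0⟩⟩⟩,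
  .M ⟨⟨⟨-4, 1⟩, ⟨4, 1⟩⟩, ⟨⟨-4, 2⟩, ⟨4, 2⟩⟩, ⟨⟨-3, 1⟩, ⟨5, 2⟩⟩⟩,
  .M ⟨⟨⟨-3, 1⟩, ⟨5, 2⟩⟩, ⟨⟨-3, 0⟩, ⟨5, 1⟩⟩, ⟨⟨-4, 1⟩, ⟨4, 1⟩⟩⟩,
  .M ⟨⟨⟨-4, 0⟩, ⟨4, 0⟩⟩, ⟨⟨-4, 1⟩, ⟨4, 1⟩⟩, ⟨⟨-3, 0⟩, ⟨5, 1⟩⟩⟩,
  .M ⟨⟨⟨-3, 0⟩, ⟨5, 1⟩⟩, ⟨⟨-3, 1⟩, ⟨5, 2⟩⟩, ⟨⟨-2, 0⟩, ⟨6, 2⟩⟩⟩,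
  .M ⟨⟨⟨-4, 1⟩, ⟨0, 1⟩⟩, ⟨⟨-2, 0⟩, ⟨0, 2⟩⟩, ⟨⟨-4, 1⟩, ⟨2, 1⟩⟩⟩,
  .M ⟨⟨⟨-4, 1⟩, ⟨2, 1⟩⟩, ⟨⟨-6, 2⟩, ⟨2, 0⟩⟩, ⟨⟨-4, 1⟩, ⟨0, 1⟩⟩⟩,
  .M ⟨⟨⟨-2, 0⟩, ⟨0, 2⟩⟩, ⟨⟨-4, 1⟩, ⟨0, 1⟩⟩, ⟨⟨-2, 0⟩, ⟨-2, 2⟩⟩⟩,
  .M ⟨⟨⟨1, 1⟩, ⟨1, 0⟩⟩, ⟨⟨0, 2⟩, ⟨2, 0⟩⟩, ⟨⟨1, 1⟩, ⟨1, 1⟩⟩⟩,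
  .M ⟨⟨⟨-2, 0⟩, ⟨0, 2⟩⟩, ⟨⟨-2, 0⟩, ⟨-2, 2⟩⟩, ⟨⟨-1, 0⟩, ⟨-1, 1⟩⟩⟩,
  .M ⟨⟨⟨-2, 0⟩, ⟨0, 2⟩⟩, ⟨⟨-1, 0⟩, ⟨-1, 1⟩⟩, ⟨⟨-1, 1⟩, ⟨-1, 1⟩⟩⟩,
  .M ⟨⟨⟨0, 2⟩, ⟨2, 0⟩⟩, ⟨⟨0, 1⟩, ⟨4, 1⟩⟩, ⟨⟨-2, 1⟩, ⟨4, 1⟩⟩⟩,
  .M ⟨⟨⟨0, 1⟩, ⟨4, 1⟩⟩, ⟨⟨0, 2⟩, ⟨2, 0⟩⟩, ⟨⟨2, 2⟩, ⟨2, 0⟩⟩⟩,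
  .M ⟨⟨⟨-2, 0⟩, ⟨6, 2⟩⟩, ⟨⟨-2, 1⟩, ⟨4, 1⟩⟩, ⟨⟨0, 1⟩, ⟨4, 1⟩⟩⟩,
  .L 0 ⟨⟨-1, 1⟩, ⟨-1, 1⟩⟩ ⟨⟨0, 1⟩, ⟨0, 1⟩⟩ [⟨⟨⟨-1, 1⟩, ⟨-1, 1⟩⟩, ⟨⟨0, 1⟩, ⟨0, 1⟩⟩, ⟨⟨-1, 1⟩, ⟨1, 1⟩⟩⟩, ⟨⟨⟨-1, 1⟩, ⟨-1, 1⟩⟩, ⟨⟨-1, 1⟩, ⟨1, 1⟩⟩, ⟨⟨-2, 1⟩, ⟨0, 1⟩⟩⟩],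
  .L 0 ⟨⟨-2, 1⟩, ⟨0, 1⟩⟩ ⟨⟨-1, 1⟩, ⟨1, 1⟩⟩ [⟨⟨⟨-2, 1⟩, ⟨0, 1⟩⟩, ⟨⟨-1, 1⟩, ⟨1, 1⟩⟩, ⟨⟨-2, 1⟩, ⟨2, 1⟩⟩⟩, ⟨⟨⟨-2, 1⟩, ⟨0, 1⟩⟩, ⟨⟨-2, 1⟩, ⟨2, 1⟩⟩, ⟨⟨-3, 1⟩, ⟨1, 1⟩⟩⟩],
  .L 0 ⟨⟨-3, 1⟩, ⟨1, 1⟩⟩ ⟨⟨-2, 1⟩, ⟨2, 1⟩⟩ [⟨⟨⟨-3, 1⟩, ⟨1, 1⟩⟩, ⟨⟨-2, 1⟩, ⟨2, 1⟩⟩, ⟨⟨-3, 1⟩, ⟨3, 1⟩⟩⟩, ⟨⟨⟨-3, 1⟩, ⟨1, 1⟩⟩, ⟨⟨-3, 1⟩, ⟨3, 1⟩⟩, ⟨⟨-4, 1⟩, ⟨2, 1⟩⟩⟩],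
  .L 0 ⟨⟨0, 1⟩, ⟨0, 1⟩⟩ ⟨⟨1, 1⟩, ⟨1, 1⟩⟩ [⟨⟨⟨0, 1⟩, ⟨0, 1⟩⟩, ⟨⟨1, 1⟩, ⟨1, 1⟩⟩, ⟨⟨0, 1⟩, ⟨2, 1⟩⟩⟩, ⟨⟨⟨0, 1⟩, ⟨0, 1⟩⟩, ⟨⟨0, 1⟩, ⟨2, 1⟩⟩, ⟨⟨-1, 1⟩, ⟨1, 1⟩⟩⟩],
  .L 0 ⟨⟨-1, 1⟩, ⟨1, 1⟩⟩ ⟨⟨0, 1⟩, ⟨2, 1⟩⟩ [⟨⟨⟨-1, 1⟩, ⟨1, 1⟩⟩, ⟨⟨0, 1⟩, ⟨2, 1⟩⟩, ⟨⟨-1, 1⟩, ⟨3, 1⟩⟩⟩, ⟨⟨⟨-1, 1⟩, ⟨1, 1⟩⟩, ⟨⟨-1, 1⟩, ⟨3, 1⟩⟩, ⟨⟨-2, 1⟩, ⟨2, 1⟩⟩⟩],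
  .L 0 ⟨⟨-2, 1⟩, ⟨2, 1⟩⟩ ⟨⟨-1, 1⟩, ⟨3, 1⟩⟩ [⟨⟨⟨-2, 1⟩, ⟨2, 1⟩⟩, ⟨⟨-1, 1⟩, ⟨3, 1⟩⟩, ⟨⟨-2, 1⟩, ⟨4, 1⟩⟩⟩, ⟨⟨⟨-2, 1⟩, ⟨2, 1⟩⟩, ⟨⟨-2, 1⟩, ⟨4, 1⟩⟩, ⟨⟨-3, 1⟩, ⟨3, 1⟩⟩⟩]]

theorem hexB_check : check hexBR (flat hexBP) = true := by decide +kernel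

theorem hexB_ok : okAll [sqE] hexBP = true := by decide +kernel

theorem hexB_tl : Tl hexBR.set :=
  Tl_of_pieces (lib := [sqE]) (AllTl_spec (l := [sqE]) ⟨sqE_tl, trivial⟩) hexB_check hexB_ok

theorem hexBE_tl : Tl (gset hexBE.l) := Tl_entry hexB_tl (by decide +kernel)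

def quadAR : Reg := .P ⟨⟨0, 0⟩, ⟨0, 0⟩⟩ ⟨⟨8, 4⟩, ⟨0, 4⟩⟩ [⟨⟨8, 4⟩, ⟨8, 4⟩⟩, ⟨⟨0, 0⟩, ⟨8, 4⟩⟩]

def quadAE : Entry := ⟨⟨⟨0, 0⟩, ⟨0, 0⟩⟩, ⟨⟨8, 4⟩, ⟨0, 4⟩⟩, [⟨⟨⟨0, 0⟩, ⟨0, 0⟩⟩, ⟨⟨8, 4⟩, ⟨0, 4⟩⟩, ⟨⟨8, 4⟩, ⟨8, 4⟩⟩⟩, ⟨⟨⟨0, 0⟩, ⟨0, 0⟩⟩, ⟨⟨8, 4⟩, ⟨8, 4⟩⟩, ⟨⟨0, 0⟩, ⟨8, 4⟩⟩⟩]⟩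

def quadAP : List Pc := [
  .M ⟨⟨⟨2, 0⟩, ⟨8, 4⟩⟩, ⟨⟨6, 3⟩, ⟨6, 3⟩⟩, ⟨⟨8, 4⟩, ⟨8, 4⟩⟩⟩,
  .M ⟨⟨⟨6, 4⟩, ⟨4, 2⟩⟩, ⟨⟨4, 2⟩, ⟨4, 2⟩⟩, ⟨⟨3, 2⟩, ⟨3, 1⟩⟩⟩,
  .M ⟨⟨⟨0, 0⟩, ⟨0, 0⟩⟩, ⟨⟨2, 1⟩, ⟨0, 1⟩⟩, ⟨⟨2, 1⟩, ⟨2, 1⟩⟩⟩,
  .M ⟨⟨⟨2, 1⟩, ⟨2, 1⟩⟩, ⟨⟨0, 0⟩, ⟨2, 0⟩⟩, ⟨⟨0, 0⟩, ⟨0, 0⟩⟩⟩,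
  .M ⟨⟨⟨6, 3⟩, ⟨6, 3⟩⟩, ⟨⟨8, 4⟩, ⟨6, 4⟩⟩, ⟨⟨8, 4⟩, ⟨8, 4⟩⟩⟩,
  .M ⟨⟨⟨2, 1⟩, ⟨0, 1⟩⟩, ⟨⟨4, 2⟩, ⟨0, 2⟩⟩, ⟨⟨4, 2⟩, ⟨2, 2⟩⟩⟩,
  .M ⟨⟨⟨4, 2⟩, ⟨2, 2⟩⟩, ⟨⟨2, 1⟩, ⟨2, 1⟩⟩, ⟨⟨2, 1⟩, ⟨0, 1⟩⟩⟩,
  .M ⟨⟨⟨4, 2⟩, ⟨0, 2⟩⟩, ⟨⟨6, 3⟩, ⟨0, 3⟩⟩, ⟨⟨6, 3⟩, ⟨2, 3⟩⟩⟩,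
  .M ⟨⟨⟨6, 3⟩, ⟨2, 3⟩⟩, ⟨⟨4, 2⟩, ⟨2, 2⟩⟩, ⟨⟨4, 2⟩, ⟨0, 2⟩⟩⟩,
  .M ⟨⟨⟨7, 4⟩, ⟨3, 3⟩⟩, ⟨⟨8, 4⟩, ⟨2, 4⟩⟩, ⟨⟨8, 4⟩, ⟨4, 3⟩⟩⟩,
  .M ⟨⟨⟨6, 3⟩, ⟨0, 3⟩⟩, ⟨⟨8, 4⟩, ⟨0, 4⟩⟩, ⟨⟨8, 4⟩, ⟨2, 4⟩⟩⟩,
  .M ⟨⟨⟨8, 4⟩, ⟨2, 4⟩⟩, ⟨⟨6, 3⟩, ⟨2, 3⟩⟩, ⟨⟨6, 3⟩, ⟨0, 3⟩⟩⟩,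
  .M ⟨⟨⟨3, 1⟩, ⟨7, 4⟩⟩, ⟨⟨4, 2⟩, ⟨4, 2⟩⟩, ⟨⟨6, 3⟩, ⟨4, 2⟩⟩⟩,
  .M ⟨⟨⟨3, 1⟩, ⟨7, 4⟩⟩, ⟨⟨5, 2⟩, ⟨5, 3⟩⟩, ⟨⟨6, 3⟩, ⟨6, 3⟩⟩⟩,
  .L 0 ⟨⟨4, 2⟩, ⟨4, 2⟩⟩ ⟨⟨3, 1⟩, ⟨7, 4⟩⟩ [⟨⟨⟨4, 2⟩, ⟨4, 2⟩⟩, ⟨⟨3, 1⟩, ⟨7, 4⟩⟩, ⟨⟨2, 0⟩, ⟨8, 4⟩⟩⟩, ⟨⟨⟨4, 2⟩, ⟨4, 2⟩⟩, ⟨⟨2, 0⟩, ⟨8, 4⟩⟩, ⟨⟨0, 0⟩, ⟨8, 4⟩⟩⟩, ⟨⟨⟨4, 2⟩, ⟨4, 2⟩⟩, ⟨⟨0, 0⟩, ⟨8, 4⟩⟩, ⟨⟨0, 0⟩, ⟨2, 0⟩⟩⟩, ⟨⟨⟨4, 2⟩, ⟨4, 2⟩⟩, ⟨⟨0, 0⟩, ⟨2, 0⟩⟩, ⟨⟨3, 2⟩, ⟨3, 1⟩⟩⟩],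
  .L 1 ⟨⟨8, 4⟩, ⟨4, 3⟩⟩ ⟨⟨8, 4⟩, ⟨6, 4⟩⟩ [⟨⟨⟨8, 4⟩, ⟨4, 3⟩⟩, ⟨⟨8, 4⟩, ⟨6, 4⟩⟩, ⟨⟨5, 2⟩, ⟨5, 3⟩⟩⟩, ⟨⟨⟨8, 4⟩, ⟨4, 3⟩⟩, ⟨⟨5, 2⟩, ⟨5, 3⟩⟩, ⟨⟨6, 3⟩, ⟨4, 2⟩⟩⟩, ⟨⟨⟨8, 4⟩, ⟨4, 3⟩⟩, ⟨⟨6, 3⟩, ⟨4, 2⟩⟩, ⟨⟨6, 4⟩, ⟨4, 2⟩⟩⟩, ⟨⟨⟨8, 4⟩, ⟨4, 3⟩⟩, ⟨⟨6, 4⟩, ⟨4, 2⟩⟩, ⟨⟨7, 4⟩, ⟨3, 3⟩⟩⟩]]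

theorem quadA_check : check quadAR (flat quadAP) = true := by decide +kernel

theorem quadA_ok : okAll [hexAE, hexBE] quadAP = true := by decide +kernel

theorem quadA_tl : Tl quadAR.set :=
  Tl_of_pieces (lib := [hexAE, hexBE]) (AllTl_spec (l := [hexAE, hexBE]) ⟨hexAE_tl, hexBE_tl, trivial⟩) quadA_check quadA_ok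

theorem quadAE_tl : Tl (gset quadAE.l) := Tl_entry quadA_tl (by decide +kernel)

def quadBR : Reg := .P ⟨⟨0, 0⟩, ⟨0, 0⟩⟩ ⟨⟨8, 4⟩, ⟨0, 4⟩⟩ [⟨⟨12, 4⟩, ⟨4, 4⟩⟩, ⟨⟨8, 4⟩, ⟨8, 4⟩⟩]

def quadBE : Entry := ⟨⟨⟨0, 0⟩, ⟨0, 0⟩⟩, ⟨⟨8, 4⟩, ⟨0, 4⟩⟩, [⟨⟨⟨0, 0⟩, ⟨0, 0⟩⟩, ⟨⟨8, 4⟩, ⟨0, 4⟩⟩, ⟨⟨12, 4⟩, ⟨4, 4⟩⟩⟩, ⟨⟨⟨0, 0⟩, ⟨0, 0⟩⟩, ⟨⟨12, 4⟩, ⟨4, 4⟩⟩, ⟨⟨8, 4⟩, ⟨8, 4⟩⟩⟩]⟩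

def quadBP : List Pc := [
  .M ⟨⟨⟨7, 3⟩, ⟨5, 4⟩⟩, ⟨⟨9, 3⟩, ⟨5, 4⟩⟩, ⟨⟨8, 4⟩, ⟨6, 4⟩⟩⟩,
  .M ⟨⟨⟨0, 0⟩, ⟨0, 0⟩⟩, ⟨⟨2, 1⟩, ⟨0, 1⟩⟩, ⟨⟨2, 1⟩, ⟨2, 1⟩⟩⟩,
  .M ⟨⟨⟨2, 1⟩, ⟨2, 1⟩⟩, ⟨⟨5, 3⟩, ⟨3, 2⟩⟩, ⟨⟨5, 3⟩, ⟨5, 3⟩⟩⟩,
  .M ⟨⟨⟨6, 3⟩, ⟨6, 3⟩⟩, ⟨⟨8, 4⟩, ⟨6, 4⟩⟩, ⟨⟨8, 4⟩, ⟨8, 4⟩⟩⟩,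
  .M ⟨⟨⟨2, 1⟩, ⟨0, 1⟩⟩, ⟨⟨4, 2⟩, ⟨0, 2⟩⟩, ⟨⟨4, 2⟩, ⟨2, 2⟩⟩⟩,
  .M ⟨⟨⟨4, 2⟩, ⟨2, 2⟩⟩, ⟨⟨2, 1⟩, ⟨2, 1⟩⟩, ⟨⟨2, 1⟩, ⟨0, 1⟩⟩⟩,
  .M ⟨⟨⟨4, 2⟩, ⟨0, 2⟩⟩, ⟨⟨6, 3⟩, ⟨0, 3⟩⟩, ⟨⟨6, 3⟩, ⟨2, 3⟩⟩⟩,
  .M ⟨⟨⟨6, 3⟩, ⟨2, 3⟩⟩, ⟨⟨4, 2⟩, ⟨2, 2⟩⟩, ⟨⟨4, 2⟩, ⟨0, 2⟩⟩⟩,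
  .M ⟨⟨⟨6, 3⟩, ⟨0, 3⟩⟩, ⟨⟨8, 4⟩, ⟨0, 4⟩⟩, ⟨⟨8, 4⟩, ⟨2, 4⟩⟩⟩,
  .M ⟨⟨⟨8, 4⟩, ⟨2, 4⟩⟩, ⟨⟨6, 3⟩, ⟨2, 3⟩⟩, ⟨⟨6, 3⟩, ⟨0, 3⟩⟩⟩,
  .M ⟨⟨⟨10, 5⟩, ⟨2, 5⟩⟩, ⟨⟨8, 4⟩, ⟨2, 4⟩⟩, ⟨⟨8, 4⟩, ⟨0, 4⟩⟩⟩,
  .M ⟨⟨⟨8, 4⟩, ⟨6, 4⟩⟩, ⟨⟨10, 3⟩, ⟨6, 5⟩⟩, ⟨⟨8, 4⟩, ⟨8, 4⟩⟩⟩,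
  .M ⟨⟨⟨8, 4⟩, ⟨4, 4⟩⟩, ⟨⟨9, 3⟩, ⟨5, 4⟩⟩, ⟨⟨7, 4⟩, ⟨5, 4⟩⟩⟩,
  .M ⟨⟨⟨8, 4⟩, ⟨4, 4⟩⟩, ⟨⟨8, 5⟩, ⟨4, 3⟩⟩, ⟨⟨9, 5⟩, ⟨3, 4⟩⟩⟩,
  .L 0 ⟨⟨8, 4⟩, ⟨4, 4⟩⟩ ⟨⟨9, 5⟩, ⟨3, 4⟩⟩ [⟨⟨⟨8, 4⟩, ⟨4, 4⟩⟩, ⟨⟨9, 5⟩, ⟨3, 4⟩⟩, ⟨⟨10, 5⟩, ⟨2, 5⟩⟩⟩, ⟨⟨⟨8, 4⟩, ⟨4, 4⟩⟩, ⟨⟨10, 5⟩, ⟨2, 5⟩⟩, ⟨⟨12, 4⟩, ⟨4, 4⟩⟩⟩, ⟨⟨⟨8, 4⟩, ⟨4, 4⟩⟩, ⟨⟨12, 4⟩, ⟨4, 4⟩⟩, ⟨⟨10, 3⟩, ⟨6, 5⟩⟩⟩, ⟨⟨⟨8, 4⟩, ⟨4, 4⟩⟩, ⟨⟨10, 3⟩, ⟨6, 5⟩⟩, ⟨⟨9, 3⟩, ⟨5, 4⟩⟩⟩],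
  .L 1 ⟨⟨5, 3⟩, ⟨5, 3⟩⟩ ⟨⟨5, 3⟩, ⟨3, 2⟩⟩ [⟨⟨⟨5, 3⟩, ⟨5, 3⟩⟩, ⟨⟨5, 3⟩, ⟨3, 2⟩⟩, ⟨⟨8, 5⟩, ⟨4, 3⟩⟩⟩, ⟨⟨⟨5, 3⟩, ⟨5, 3⟩⟩, ⟨⟨8, 5⟩, ⟨4, 3⟩⟩, ⟨⟨7, 4⟩, ⟨5, 4⟩⟩⟩, ⟨⟨⟨5, 3⟩, ⟨5, 3⟩⟩, ⟨⟨7, 4⟩, ⟨5, 4⟩⟩, ⟨⟨7, 3⟩, ⟨5, 4⟩⟩⟩, ⟨⟨⟨5, 3⟩, ⟨5, 3⟩⟩, ⟨⟨7, 3⟩, ⟨5, 4⟩⟩, ⟨⟨6, 3⟩, ⟨6, 3⟩⟩⟩]]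

theorem quadB_check : check quadBR (flat quadBP) = true := by decide +kernel

theorem quadB_ok : okAll [hexAE, hexBE] quadBP = true := by decide +kernel

theorem quadB_tl : Tl quadBR.set :=
  Tl_of_pieces (lib := [hexAE, hexBE]) (AllTl_spec (l := [hexAE, hexBE]) ⟨hexAE_tl, hexBE_tl, trivial⟩) quadB_check quadB_ok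

theorem quadBE_tl : Tl (gset quadBE.l) := Tl_entry quadB_tl (by decide +kernel)

def rightIsoR : Reg := .T ⟨⟨⟨0, 0⟩, ⟨0, 0⟩⟩, ⟨⟨12, 0⟩, ⟨0, 0⟩⟩, ⟨⟨0, 0⟩, ⟨12, 0⟩⟩⟩

def rightIsoE : Entry := ⟨⟨⟨0, 0⟩, ⟨0, 0⟩⟩, ⟨⟨12, 0⟩, ⟨0, 0⟩⟩, [⟨⟨⟨0, 0⟩, ⟨0, 0⟩⟩, ⟨⟨12, 0⟩, ⟨0, 0⟩⟩, ⟨⟨0, 0⟩, ⟨12, 0⟩⟩⟩]⟩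

def rightIsoP : List Pc := [
  .M ⟨⟨⟨2, -1⟩, ⟨4, -1⟩⟩, ⟨⟨2, 0⟩, ⟨2, 0⟩⟩, ⟨⟨4, -1⟩, ⟨4, -1⟩⟩⟩,
  .M ⟨⟨⟨2, 0⟩, ⟨2, 0⟩⟩, ⟨⟨4, 1⟩, ⟨2, 1⟩⟩, ⟨⟨4, 1⟩, ⟨4, 1⟩⟩⟩,
  .M ⟨⟨⟨4, -1⟩, ⟨4, -1⟩⟩, ⟨⟨4, 1⟩, ⟨4, 1⟩⟩, ⟨⟨6, -1⟩, ⟨6, 1⟩⟩⟩,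
  .M ⟨⟨⟨0, 0⟩, ⟨6, -2⟩⟩, ⟨⟨4, -1⟩, ⟨8, 1⟩⟩, ⟨⟨0, 0⟩, ⟨12, 0⟩⟩⟩,
  .M ⟨⟨⟨4, -1⟩, ⟨4, -1⟩⟩, ⟨⟨6, -1⟩, ⟨6, 1⟩⟩, ⟨⟨4, -1⟩, ⟨8, 1⟩⟩⟩,
  .M ⟨⟨⟨8, -1⟩, ⟨4, 1⟩⟩, ⟨⟨6, 2⟩, ⟨0, 0⟩⟩, ⟨⟨12, 0⟩, ⟨0, 0⟩⟩⟩,
  .M ⟨⟨⟨6, -1⟩, ⟨6, 1⟩⟩, ⟨⟨4, 1⟩, ⟨4, 1⟩⟩, ⟨⟨8, -1⟩, ⟨4, 1⟩⟩⟩,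
  .L 1 ⟨⟨4, 1⟩, ⟨2, 1⟩⟩ ⟨⟨2, 0⟩, ⟨2, 0⟩⟩ [⟨⟨⟨4, 1⟩, ⟨2, 1⟩⟩, ⟨⟨2, 0⟩, ⟨2, 0⟩⟩, ⟨⟨2, 0⟩, ⟨0, 0⟩⟩⟩, ⟨⟨⟨4, 1⟩, ⟨2, 1⟩⟩, ⟨⟨2, 0⟩, ⟨0, 0⟩⟩, ⟨⟨4, 1⟩, ⟨0, 0⟩⟩⟩],
  .L 1 ⟨⟨6, 2⟩, ⟨0, 0⟩⟩ ⟨⟨6, 1⟩, ⟨2, 1⟩⟩ [⟨⟨⟨6, 2⟩, ⟨0, 0⟩⟩, ⟨⟨6, 1⟩, ⟨2, 1⟩⟩, ⟨⟨4, 1⟩, ⟨2, 1⟩⟩⟩, ⟨⟨⟨6, 2⟩, ⟨0, 0⟩⟩, ⟨⟨4, 1⟩, ⟨2, 1⟩⟩, ⟨⟨4, 1⟩, ⟨0, 0⟩⟩⟩],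
  .L 1 ⟨⟨6, 1⟩, ⟨2, 1⟩⟩ ⟨⟨8, -1⟩, ⟨4, 1⟩⟩ [⟨⟨⟨6, 1⟩, ⟨2, 1⟩⟩, ⟨⟨8, -1⟩, ⟨4, 1⟩⟩, ⟨⟨4, 1⟩, ⟨4, 1⟩⟩⟩, ⟨⟨⟨6, 1⟩, ⟨2, 1⟩⟩, ⟨⟨4, 1⟩, ⟨4, 1⟩⟩, ⟨⟨4, 1⟩, ⟨2, 1⟩⟩⟩],
  .L 2 ⟨⟨2, -1⟩, ⟨6, -1⟩⟩ ⟨⟨0, 0⟩, ⟨6, -2⟩⟩ [⟨⟨⟨2, -1⟩, ⟨6, -1⟩⟩, ⟨⟨0, 0⟩, ⟨6, -2⟩⟩, ⟨⟨0, 0⟩, ⟨4, -1⟩⟩⟩, ⟨⟨⟨2, -1⟩, ⟨6, -1⟩⟩, ⟨⟨0, 0⟩, ⟨4, -1⟩⟩, ⟨⟨2, -1⟩, ⟨4, -1⟩⟩⟩],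
  .L 2 ⟨⟨4, -1⟩, ⟨8, 1⟩⟩ ⟨⟨2, -1⟩, ⟨6, -1⟩⟩ [⟨⟨⟨4, -1⟩, ⟨8, 1⟩⟩, ⟨⟨2, -1⟩, ⟨6, -1⟩⟩, ⟨⟨2, -1⟩, ⟨4, -1⟩⟩⟩, ⟨⟨⟨4, -1⟩, ⟨8, 1⟩⟩, ⟨⟨2, -1⟩, ⟨4, -1⟩⟩, ⟨⟨4, -1⟩, ⟨4, -1⟩⟩⟩],
  .L 2 ⟨⟨2, 0⟩, ⟨2, 0⟩⟩ ⟨⟨2, -1⟩, ⟨4, -1⟩⟩ [⟨⟨⟨2, 0⟩, ⟨2, 0⟩⟩, ⟨⟨2, -1⟩, ⟨4, -1⟩⟩, ⟨⟨0, 0⟩, ⟨4, -1⟩⟩⟩, ⟨⟨⟨2, 0⟩, ⟨2, 0⟩⟩, ⟨⟨0, 0⟩, ⟨4, -1⟩⟩, ⟨⟨0, 0⟩, ⟨2, 0⟩⟩⟩],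
  .L 0 ⟨⟨0, 0⟩, ⟨0, 0⟩⟩ ⟨⟨2, 0⟩, ⟨0, 0⟩⟩ [⟨⟨⟨0, 0⟩, ⟨0, 0⟩⟩, ⟨⟨2, 0⟩, ⟨0, 0⟩⟩, ⟨⟨2, 0⟩, ⟨2, 0⟩⟩⟩, ⟨⟨⟨0, 0⟩, ⟨0, 0⟩⟩, ⟨⟨2, 0⟩, ⟨2, 0⟩⟩, ⟨⟨0, 0⟩, ⟨2, 0⟩⟩⟩]]

theorem rightIso_check : check rightIsoR (flat rightIsoP) = true := by decide +kernel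

theorem rightIso_ok : okAll [sqE, quadAE, quadBE] rightIsoP = true := by decide +kernel

theorem rightIso_tl : Tl rightIsoR.set :=
  Tl_of_pieces (lib := [sqE, quadAE, quadBE]) (AllTl_spec (l := [sqE, quadAE, quadBE]) ⟨sqE_tl, quadAE_tl, quadBE_tl, trivial⟩) rightIso_check rightIso_ok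

theorem rightIsoE_tl : Tl (gset rightIsoE.l) := Tl_entry rightIso_tl (by decide +kernel)

def targetR : Reg := .T ⟨⟨⟨0, 0⟩, ⟨0, 0⟩⟩, ⟨⟨0, 6⟩, ⟨0, 0⟩⟩, ⟨⟨6, 0⟩, ⟨-6, 6⟩⟩⟩

def targetE : Entry := ⟨⟨⟨0, 0⟩, ⟨0, 0⟩⟩, ⟨⟨0, 6⟩, ⟨0, 0⟩⟩, [⟨⟨⟨0, 0⟩, ⟨0, 0⟩⟩, ⟨⟨0, 6⟩, ⟨0, 0⟩⟩, ⟨⟨6, 0⟩, ⟨-6, 6⟩⟩⟩]⟩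

def targetP : List Pc := [
  .M ⟨⟨⟨2, 3⟩, ⟨0, 0⟩⟩, ⟨⟨1, 3⟩, ⟨-1, 1⟩⟩, ⟨⟨2, 2⟩, ⟨0, 0⟩⟩⟩,
  .M ⟨⟨⟨2, 4⟩, ⟨0, 0⟩⟩, ⟨⟨1, 4⟩, ⟨-1, 1⟩⟩, ⟨⟨2, 3⟩, ⟨0, 0⟩⟩⟩,
  .M ⟨⟨⟨1, 3⟩, ⟨-1, 1⟩⟩, ⟨⟨2, 3⟩, ⟨0, 0⟩⟩, ⟨⟨1, 4⟩, ⟨-1, 1⟩⟩⟩,
  .M ⟨⟨⟨1, 4⟩, ⟨-1, 1⟩⟩, ⟨⟨2, 4⟩, ⟨0, 0⟩⟩, ⟨⟨1, 5⟩, ⟨-1, 1⟩⟩⟩,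
  .M ⟨⟨⟨0, 0⟩, ⟨0, 0⟩⟩, ⟨⟨2, 2⟩, ⟨0, 0⟩⟩, ⟨⟨3, 2⟩, ⟨1, 1⟩⟩⟩,
  .M ⟨⟨⟨2, 2⟩, ⟨0, 0⟩⟩, ⟨⟨2, 3⟩, ⟨0, 1⟩⟩, ⟨⟨3, 2⟩, ⟨1, 1⟩⟩⟩,
  .M ⟨⟨⟨2, 3⟩, ⟨0, 1⟩⟩, ⟨⟨2, 3⟩, ⟨-2, 3⟩⟩, ⟨⟨3, 2⟩, ⟨1, 1⟩⟩⟩,
  .M ⟨⟨⟨2, 3⟩, ⟨-2, 3⟩⟩, ⟨⟨6, 0⟩, ⟨-6, 6⟩⟩, ⟨⟨3, 2⟩, ⟨1, 1⟩⟩⟩,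
  .L 0 ⟨⟨1, 4⟩, ⟨-1, 1⟩⟩ ⟨⟨1, 5⟩, ⟨-1, 1⟩⟩ [⟨⟨⟨1, 4⟩, ⟨-1, 1⟩⟩, ⟨⟨1, 5⟩, ⟨-1, 1⟩⟩, ⟨⟨1, 4⟩, ⟨-1, 2⟩⟩⟩],
  .L 0 ⟨⟨1, 5⟩, ⟨-1, 1⟩⟩ ⟨⟨2, 4⟩, ⟨0, 0⟩⟩ [⟨⟨⟨1, 5⟩, ⟨-1, 1⟩⟩, ⟨⟨2, 4⟩, ⟨0, 0⟩⟩, ⟨⟨0, 6⟩, ⟨0, 0⟩⟩⟩],
  .L 0 ⟨⟨1, 4⟩, ⟨-1, 1⟩⟩ ⟨⟨1, 4⟩, ⟨-1, 2⟩⟩ [⟨⟨⟨1, 4⟩, ⟨-1, 1⟩⟩, ⟨⟨1, 4⟩, ⟨-1, 2⟩⟩, ⟨⟨1, 3⟩, ⟨-1, 1⟩⟩⟩],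
  .L 0 ⟨⟨1, 4⟩, ⟨-1, 2⟩⟩ ⟨⟨2, 3⟩, ⟨-2, 3⟩⟩ [⟨⟨⟨1, 4⟩, ⟨-1, 2⟩⟩, ⟨⟨2, 3⟩, ⟨-2, 3⟩⟩, ⟨⟨2, 3⟩, ⟨0, 1⟩⟩⟩]]

theorem target_check : check targetR (flat targetP) = true := by decide +kernel

theorem target_ok : okAll [rightIsoE] targetP = true := by decide +kernel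

theorem target_tl : Tl targetR.set :=
  Tl_of_pieces (lib := [rightIsoE]) (AllTl_spec (l := [rightIsoE]) ⟨rightIsoE_tl, trivial⟩) target_check target_ok

theorem targetE_tl : Tl (gset targetE.l) := Tl_entry target_tl (by decide +kernel)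

theorem main : Conc T0.p.val T0.q.val T0.r.val := by
  apply conc_of_Tl
  have h : Tl (gset targetE.l) := targetE_tl
  exact Tl_T0 (t := ⟨⟨⟨0, 0⟩, ⟨0, 0⟩⟩, ⟨⟨0, 6⟩, ⟨0, 0⟩⟩, ⟨⟨6, 0⟩, ⟨-6, 6⟩⟩⟩) (by simpa [targetE, gset] using h) (by decide) (by decide)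

end Pool.Agent.Helper52.MirrorTri
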