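import Mathlib

/-!
Definitions for the locally perturbed heavy-tailed planar walk.
-/

open scoped ENNReal

namespace Pool.Agent.Helper52.PerturbedWalk

/-- `ζ(3) = ∑_{k ≥ 1} k^{-3}`. -/
noncomputable def zeta3 : ℝ := ∑' k : ℕ, 1 / ((k : ℝ) + 1) ^ 3

/-- The heavy-tailed step law `μ` on `ℤ²` as a function:
`μ({± k e_i}) = k^{-3} / (4 ζ(3))` for `k ≥ 1`, and `μ = 0` elsewhere. -/
noncomputable def muFun (x : ℤ × ℤ) : ℝ≥0∞ :=
  if x ≠ 0 ∧ (x.1 = 0 ∨ x.2 = 0) then
    ENNReal.ofReal (1 / (4 * zeta3) / (|(x.1 : ℝ)| + |(x.2 : ℝ)|) ^ 3)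
  else 0

/-- The uniform law on the four unit vectors `± e_1, ± e_2`, as a function. -/
noncomputable def nuFun (x : ℤ × ℤ) : ℝ≥0∞ :=
  if x = (1, 0) ∨ x = (-1, 0) ∨ x = (0, 1) ∨ x = (0, -1) then 1 / 4 else 0

/-- the four unit vectors -/
def dirs (i : Fin 4) : ℤ × ℤ :=
  match i with
  | 0 => (1, 0)
  | 1 => (-1, 0)
  | 2 => (0, 1)
  | 3 => (0, -1)

theorem summable_zeta3 : Summable fun k : ℕ => 1 / ((k : ℝ) + 1) ^ 3 := by
  have h : Summable fun k : ℕ => 1 / (k : ℝ) ^ 3 := Real.summable_one_div_nat_pow.mpr (by norm_num)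
  have := (summable_nat_add_iff 1).mpr h
  simpa using this

theorem one_lt_zeta3 : 1 < zeta3 := by
  have h1 : ∑ k ∈ Finset.range 2, 1 / ((k : ℝ) + 1) ^ 3 ≤ zeta3 :=
    summable_zeta3.sum_le_tsum _ (fun k _ => by positivity)
  have h2 : ∑ k ∈ Finset.range 2, 1 / ((k : ℝ) + 1) ^ 3 = 1 + 1 / 8 := by
    rw [Finset.sum_range_succ, Finset.sum_range_one]
    norm_num
  linarith

theorem tsum_muFun : ∑' x : ℤ × ℤ, muFun x = 1 := by
  let φ : Fin 4 × ℕ → ℤ × ℤ := fun p => ((p.2 : ℤ) + 1) • dirs p.1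
  have hφ : Function.Injective φ := by
    rintro ⟨i, k⟩ ⟨j, l⟩ h
    fin_cases i <;> fin_cases j <;>
      simp only [φ, dirs, Fin.zero_eta, Fin.mk_one, Fin.reduceFinMk, Prod.smul_mk, smul_eq_mul,
        mul_one, mul_zero, mul_neg, Prod.mk.injEq] at h <;>
      first
        | (exfalso; omega)
        | (have hkl : k = l := by omega
           rw [hkl])
  have hsupp : Function.support muFun ⊆ Set.range φ := by
    intro x hx
    rw [Function.mem_support] at hx
    obtain ⟨a, b⟩ := x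
    have hcond : (a, b) ≠ (0 : ℤ × ℤ) ∧ (a = 0 ∨ b = 0) := by
      by_contra hcon
      exact hx (if_neg hcon)
    obtain ⟨hne, h | h⟩ := hcond
    · subst h
      have hb : b ≠ 0 := fun h => hne (by rw [h]; rfl)
      rcases lt_or_gt_of_ne hb with hb | hb
      · refine ⟨(3, (-b - 1).toNat), ?_⟩
        simp only [φ, dirs, Prod.smul_mk, smul_eq_mul, mul_zero, Prod.mk.injEq, true_and]
        omega
      · refine ⟨(2, (b - 1).toNat), ?_⟩
        simp only [φ, dirs, Prod.smul_mk, smul_eq_mul, mul_zero, Prod.mk.injEq, true_and]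
        omega
    · subst h
      have ha : a ≠ 0 := fun h => hne (by rw [h]; rfl)
      rcases lt_or_gt_of_ne ha with ha | ha
      · refine ⟨(1, (-a - 1).toNat), ?_⟩
        simp only [φ, dirs, Prod.smul_mk, smul_eq_mul, mul_zero, Prod.mk.injEq, and_true]
        omega
      · refine ⟨(0, (a - 1).toNat), ?_⟩
        simp only [φ, dirs, Prod.smul_mk, smul_eq_mul, mul_zero, Prod.mk.injEq, and_true]
        omega
  rw [← hφ.tsum_eq hsupp, ENNReal.tsum_prod', tsum_fintype]
  have hz := one_lt_zeta3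
  have hval : ∀ i : Fin 4, ∀ k : ℕ, muFun (φ (i, k)) =
      ENNReal.ofReal (1 / (4 * zeta3) * (1 / ((k : ℝ) + 1) ^ 3)) := by
    intro i k
    have hk : (0 : ℝ) < (k : ℝ) + 1 := by positivity
    have hk' : ((k : ℤ) + 1) ≠ 0 := by omega
    unfold muFun
    rw [if_pos]
    · congr 1
      rw [div_eq_mul_one_div (1 / (4 * zeta3))]
      congr 2
      have habs : |(-1 + -(k : ℝ))| = (k : ℝ) + 1 := by
        rw [show (-1 + -(k : ℝ)) = -((k : ℝ) + 1) by ring, abs_neg, abs_of_pos hk]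
      fin_cases i <;> simp [φ, dirs, abs_of_pos hk, habs]
    · fin_cases i <;> simp [φ, dirs, Prod.ext_iff] <;> omega
  simp only [hval]
  rw [Finset.sum_const, Finset.card_univ, Fintype.card_fin]
  rw [← ENNReal.ofReal_tsum_of_nonneg (fun k => by positivity) (summable_zeta3.mul_left _),
    tsum_mul_left]
  change 4 • ENNReal.ofReal (1 / (4 * zeta3) * zeta3) = 1
  have : 1 / (4 * zeta3) * zeta3 = 1 / 4 := by field_simp
  rw [this, nsmul_eq_mul, ← ENNReal.ofReal_natCast, ← ENNReal.ofReal_mul (by norm_num)]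
  norm_num

theorem tsum_nuFun : ∑' x : ℤ × ℤ, nuFun x = 1 := by
  have hφ : Function.Injective dirs := by decide
  have hsupp : Function.support nuFun ⊆ Set.range dirs := by
    intro x hx
    rw [Function.mem_support] at hx
    have hcond : x = (1, 0) ∨ x = (-1, 0) ∨ x = (0, 1) ∨ x = (0, -1) := by
      by_contra hcon
      exact hx (if_neg hcon)
    rcases hcond with h | h | h | h
    · exact ⟨0, h.symm⟩
    · exact ⟨1, h.symm⟩
    · exact ⟨2, h.symm⟩
    · exact ⟨3, h.symm⟩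
  rw [← hφ.tsum_eq hsupp, tsum_fintype]
  have : ∀ i : Fin 4, nuFun (dirs i) = 1 / 4 := by
    intro i
    unfold nuFun
    rw [if_pos]
    fin_cases i <;> simp [dirs]
  simp only [this]
  rw [Finset.sum_const, Finset.card_univ, Fintype.card_fin, nsmul_eq_mul]
  norm_num
  exact ENNReal.mul_inv_cancel (by norm_num) (by norm_num)

/-- The heavy-tailed step law `μ`. -/
noncomputable def mu : PMF (ℤ × ℤ) := ⟨muFun, by rw [← tsum_muFun]; exact ENNReal.summable.hasSum⟩

/-- The uniform law on `{± e_1, ± e_2}`. -/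
noncomputable def nu : PMF (ℤ × ℤ) := ⟨nuFun, by rw [← tsum_nuFun]; exact ENNReal.summable.hasSum⟩

/-- The transition kernel of the perturbed walk: from the origin the jump has law `nu`, from every
other site `y` it has law `mu`. -/
noncomputable def step (y : ℤ × ℤ) : PMF (ℤ × ℤ) :=
  (if y = 0 then nu else mu).map fun j => y + j

/-- The law of `S_n`, for the Markov chain with kernel `step` started at the origin. -/
noncomputable def walkLaw : ℕ → PMF (ℤ × ℤ)
  | 0 => PMF.pure 0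
  | n + 1 => (walkLaw n).bind step

/-- `P(S_n = x)`. -/
noncomputable def prob (n : ℕ) (x : ℤ × ℤ) : ℝ := (walkLaw n x).toReal

/-- The density `g(y) = (2 π C²)⁻¹ exp (- |y|² / (2 C²))` of `C W(1)`, `W` a standard planar
Brownian motion. -/
noncomputable def gauss (C : ℝ) (y : ℝ × ℝ) : ℝ :=
  (2 * Real.pi * C ^ 2)⁻¹ * Real.exp (-(y.1 ^ 2 + y.2 ^ 2) / (2 * C ^ 2))

/-- The rescaled point `x / √(n log n)`. -/
noncomputable def rescale (n : ℕ) (x : ℤ × ℤ) : ℝ × ℝ :=
  ((x.1 : ℝ) / √(n * Real.log n), (x.2 : ℝ) / √(n * Real.log n))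

/-- `sup_{x ∈ ℤ²} | n log n P(S_n = x) - g(x / √(n log n)) |`. -/
noncomputable def lltError (C : ℝ) (n : ℕ) : ℝ :=
  ⨆ x : ℤ × ℤ, |n * Real.log n * prob n x - gauss C (rescale n x)|

end Pool.Agent.Helper52.PerturbedWalk
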