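import Mathlib
import Pool.Agent.Helper52.PerturbedWalkDefs

open scoped ENNReal Topology
open Filter

namespace Pool.Agent.Helper52.PerturbedWalk

theorem step_apply (y x : ℤ × ℤ) : step y x = (if y = 0 then nu else mu) (x - y) := by
  unfold step
  rw [PMF.map_apply, tsum_eq_single (x - y)]
  · rw [if_pos (by abel)]
  · intro b hb
    rw [if_neg]
    intro h
    exact hb (by rw [h]; abel)

theorem nu_e : nu (1, 0) = 1 / 4 := by
  change nuFun (1, 0) = 1 / 4
  simp [nuFun]

theorem mu_e : mu (1, 0) = ENNReal.ofReal (1 / (4 * zeta3)) := by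
  change muFun (1, 0) = _
  simp [muFun]

theorem mu_e_lt : mu (1, 0) < 1 / 4 := by
  have h1 := one_lt_zeta3
  rw [mu_e]
  have h2 : (1 / 4 : ℝ≥0∞) = ENNReal.ofReal (1 / 4) := by
    rw [ENNReal.ofReal_div_of_pos (by norm_num)]
    norm_num
  rw [h2]
  refine (ENNReal.ofReal_lt_ofReal_iff (by norm_num)).mpr ?_
  rw [div_lt_div_iff₀ (by positivity) (by norm_num)]
  linarith

/-- the column sum of the kernel at `e_1` exceeds one -/
theorem one_lt_tsum_step : 1 < ∑' y : ℤ × ℤ, step y (1, 0) := by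
  have h1 : ∑' y : ℤ × ℤ, mu ((1, 0) - y) = 1 := by
    rw [← mu.tsum_coe]
    exact (Equiv.subLeft ((1, 0) : ℤ × ℤ)).tsum_eq mu
  have key : ∀ f : ℤ × ℤ → ℝ≥0∞, ∑' x, f x = f 0 + ∑' x, (if x = 0 then 0 else f x) := by
    intro f
    rw [ENNReal.tsum_eq_add_tsum_ite (0 : ℤ × ℤ)]
    congr 1
    refine tsum_congr fun x => ?_
    split_ifs <;> rfl
  rw [key] at h1 ⊢
  have h2 : ∀ y : ℤ × ℤ, (if y = 0 then 0 else step y (1, 0)) =
      if y = 0 then 0 else mu ((1, 0) - y) := by
    intro y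
    split_ifs with h
    · rfl
    · rw [step_apply, if_neg h]
  simp only [h2]
  have h3 : step 0 (1, 0) = 1 / 4 := by
    rw [step_apply, if_pos rfl, sub_zero, nu_e]
  rw [h3]
  rw [sub_zero] at h1
  set T := ∑' y : ℤ × ℤ, if y = 0 then 0 else mu ((1, 0) - y) with hT
  have hTfin : T ≠ ∞ := by
    intro h
    rw [h] at h1
    simp at h1
  calc (1 : ℝ≥0∞) = mu (1, 0) + T := h1.symm
    _ < 1 / 4 + T := ENNReal.add_lt_add_right hTfin mu_e_lt

/-- The normalised point probabilities cannot converge to one common positive constant at all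
lattice points. -/
theorem exists_not_tendsto (κ : ℝ) (hκ : 0 < κ) :
    ∃ x : ℤ × ℤ, ¬ Tendsto (fun n : ℕ => n * Real.log n * prob n x) atTop (𝓝 κ) := by
  by_contra hcon
  push Not at hcon
  refine absurd one_lt_tsum_step (not_lt.mpr ?_)
  rw [ENNReal.tsum_eq_iSup_sum]
  refine iSup_le fun F => ?_
  have hmul : ∀ n : ℕ, ∑ y ∈ F, (n * Real.log n * prob n y) * (step y (1, 0)).toReal ≤
      ((n + 1 : ℕ) : ℝ) * Real.log ((n + 1 : ℕ) : ℝ) * prob (n + 1) (1, 0) := by
    intro n
    have h1 : ∑ y ∈ F, walkLaw n y * step y (1, 0) ≤ walkLaw (n + 1) (1, 0) := by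
      change _ ≤ (walkLaw n).bind step (1, 0)
      rw [PMF.bind_apply]
      exact ENNReal.sum_le_tsum F
    have h2 : ∑ y ∈ F, prob n y * (step y (1, 0)).toReal ≤ prob (n + 1) (1, 0) := by
      have := ENNReal.toReal_mono (PMF.apply_ne_top _ _) h1
      rw [ENNReal.toReal_sum] at this
      · simpa only [prob, ENNReal.toReal_mul] using this
      · intro y _
        exact ENNReal.mul_ne_top (PMF.apply_ne_top _ _) (PMF.apply_ne_top _ _)
    have hn : (0 : ℝ) ≤ n * Real.log n := by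
      rcases Nat.eq_zero_or_pos n with h | h
      · simp [h]
      · have : (1 : ℝ) ≤ n := by exact_mod_cast h
        exact mul_nonneg (by positivity) (Real.log_nonneg this)
    have hmono : (n : ℝ) * Real.log n ≤ ((n + 1 : ℕ) : ℝ) * Real.log ((n + 1 : ℕ) : ℝ) := by
      rcases Nat.eq_zero_or_pos n with h | h
      · simp [h]
      · have h1 : (1 : ℝ) ≤ n := by exact_mod_cast h
        have h2 : (n : ℝ) ≤ ((n + 1 : ℕ) : ℝ) := by push_cast; linarith
        exact mul_le_mul h2 (Real.log_le_log (by linarith) h2) (Real.log_nonneg h1)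
          (by positivity)
    have hp : 0 ≤ prob (n + 1) (1, 0) := ENNReal.toReal_nonneg
    calc ∑ y ∈ F, (n * Real.log n * prob n y) * (step y (1, 0)).toReal
        = n * Real.log n * ∑ y ∈ F, prob n y * (step y (1, 0)).toReal := by
          rw [Finset.mul_sum]
          exact Finset.sum_congr rfl fun y _ => by ring
      _ ≤ n * Real.log n * prob (n + 1) (1, 0) := mul_le_mul_of_nonneg_left h2 hn
      _ ≤ _ := mul_le_mul_of_nonneg_right hmono hp
  have hlim1 : Tendsto (fun n : ℕ => ∑ y ∈ F, (n * Real.log n * prob n y) *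
      (step y (1, 0)).toReal) atTop (𝓝 (∑ y ∈ F, κ * (step y (1, 0)).toReal)) :=
    tendsto_finsetSum _ fun y _ => (hcon y).mul_const _
  have hlim2 : Tendsto (fun n : ℕ => ((n + 1 : ℕ) : ℝ) * Real.log ((n + 1 : ℕ) : ℝ) *
      prob (n + 1) (1, 0)) atTop (𝓝 κ) := (tendsto_add_atTop_iff_nat 1).mpr (hcon (1, 0))
  have hle := le_of_tendsto_of_tendsto' hlim1 hlim2 hmul
  rw [← Finset.mul_sum] at hle
  have hle' : ∑ y ∈ F, (step y (1, 0)).toReal ≤ 1 := by
    by_contra h
    push Not at h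
    nlinarith
  rw [← ENNReal.toReal_sum (fun y _ => PMF.apply_ne_top _ _)] at hle'
  rw [← ENNReal.toReal_le_toReal (ENNReal.sum_ne_top.mpr fun y _ => PMF.apply_ne_top _ _)
    ENNReal.one_ne_top, ENNReal.toReal_one]
  exact hle'

theorem gauss_nonneg (C : ℝ) (y : ℝ × ℝ) : 0 ≤ gauss C y := by
  unfold gauss
  positivity

theorem gauss_le (C : ℝ) (y : ℝ × ℝ) : gauss C y ≤ (2 * Real.pi * C ^ 2)⁻¹ := by
  unfold gauss
  have h1 : Real.exp (-(y.1 ^ 2 + y.2 ^ 2) / (2 * C ^ 2)) ≤ 1 := by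
    rw [Real.exp_le_one_iff]
    apply div_nonpos_of_nonpos_of_nonneg
    · nlinarith [sq_nonneg y.1, sq_nonneg y.2]
    · positivity
  have h2 : (0 : ℝ) ≤ (2 * Real.pi * C ^ 2)⁻¹ := by positivity
  nlinarith

theorem main (C : ℝ) (hC : 0 < C) : ¬ Tendsto (lltError C) atTop (𝓝 0) := by
  intro h
  have hκ : 0 < gauss C 0 := by
    unfold gauss
    positivity
  obtain ⟨x, hx⟩ := exists_not_tendsto (gauss C 0) hκ
  apply hx
  have hnl : Tendsto (fun n : ℕ => (n : ℝ) * Real.log n) atTop atTop :=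
    tendsto_natCast_atTop_atTop.atTop_mul_atTop₀
      (Real.tendsto_log_atTop.comp tendsto_natCast_atTop_atTop)
  have hsq : Tendsto (fun n : ℕ => √((n : ℝ) * Real.log n)) atTop atTop :=
    Real.tendsto_sqrt_atTop.comp hnl
  have hres : Tendsto (fun n : ℕ => rescale n x) atTop (𝓝 0) := by
    unfold rescale
    exact (Tendsto.div_atTop tendsto_const_nhds hsq).prodMk_nhds
      (Tendsto.div_atTop tendsto_const_nhds hsq)
  have hgc : Continuous (gauss C) := by
    unfold gauss
    fun_prop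
  have hg : Tendsto (fun n : ℕ => gauss C (rescale n x)) atTop (𝓝 (gauss C 0)) :=
    (hgc.tendsto 0).comp hres
  have hbd : ∀ n : ℕ, BddAbove (Set.range fun x : ℤ × ℤ =>
      |n * Real.log n * prob n x - gauss C (rescale n x)|) := by
    intro n
    refine ⟨|(n : ℝ) * Real.log n| + (2 * Real.pi * C ^ 2)⁻¹, ?_⟩
    rintro _ ⟨y, rfl⟩
    have h1 : prob n y ≤ 1 := by
      have := ENNReal.toReal_mono ENNReal.one_ne_top ((walkLaw n).coe_le_one y)
      simpa [prob] using this
    have h0 : 0 ≤ prob n y := ENNReal.toReal_nonneg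
    refine (abs_sub _ _).trans (add_le_add ?_ ?_)
    · rw [abs_mul]
      have : |prob n y| ≤ 1 := by rw [abs_of_nonneg h0]; exact h1
      exact mul_le_of_le_one_right (abs_nonneg _) this
    · rw [abs_of_nonneg (gauss_nonneg _ _)]
      exact gauss_le _ _
  have hle : ∀ n : ℕ, |n * Real.log n * prob n x - gauss C (rescale n x)| ≤ lltError C n :=
    fun n => le_ciSup (hbd n) x
  have hz : Tendsto (fun n : ℕ => n * Real.log n * prob n x - gauss C (rescale n x)) atTop
      (𝓝 0) := by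
    rw [tendsto_zero_iff_abs_tendsto_zero]
    exact squeeze_zero (fun n => abs_nonneg _) hle h
  have := hz.add hg
  simpa using this

end Pool.Agent.Helper52.PerturbedWalk
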